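import Pool.Agent.P.MP_3555ad_an.BD.Layout
import Pool.Agent.P.MP_3555ad_an.Mesh

set_option autoImplicit false

namespace Pool.Agent.P.MP_3555ad_an.BD

open Finset

/-- Faces of the layered complex, listed from a preferred vertex. -/
def F0 (a b d : V) : Prop :=
  (∃ k l, a = mk k (l / M k) ∧ b = mk (k + 1) l ∧ d = mk (k + 1) (l + 1)) ∨
  (∃ k i, a = mk (k + 1) i ∧ b = mk (k + 1) (i - 1) ∧ d = mk (k + 2) (i * M (k + 1)))

/-- Positively oriented faces of the layered complex. -/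
def FF (a b d : V) : Prop := F0 a b d ∨ F0 b d a ∨ F0 d a b

lemma FF.rot {a b d : V} (h : FF a b d) : FF b d a := by
  rcases h with h | h | h
  · exact Or.inr (Or.inr h)
  · exact Or.inl h
  · exact Or.inr (Or.inl h)

lemma fanF (k : ℕ) (l : ℤ) : FF (mk k (l / M k)) (mk (k + 1) l) (mk (k + 1) (l + 1)) :=
  Or.inl (Or.inl ⟨k, l, rfl, rfl, rfl⟩)

lemma downF (k : ℕ) (i : ℤ) :
    FF (mk (k + 1) i) (mk (k + 1) (i - 1)) (mk (k + 2) (i * M (k + 1))) :=
  Or.inl (Or.inr ⟨k, i, rfl, rfl, rfl⟩)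

lemma fanF' (k : ℕ) (l : ℤ) : FF (mk k ((l - 1) / M k)) (mk (k + 1) (l - 1)) (mk (k + 1) l) := by
  have := fanF k (l - 1)
  rwa [sub_add_cancel] at this

/-- Either both parents agree or they span a face. -/
lemma parents (k : ℕ) (l : ℤ) : mk k ((l - 1) / M k) = mk k (l / M k) ∨
    FF (mk k (l / M k)) (mk k ((l - 1) / M k)) (mk (k + 1) l) := by
  by_cases hm : l % M k = 0
  · cases k with
    | zero => exact Or.inl (mk_zero _ _)
    | succ k =>
      right
      have := downF k (l / M (k + 1))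
      rw [← eq_mul_of_mod hm] at this
      have e : (l - 1) / M (k + 1) = l / M (k + 1) - 1 := by
        conv_lhs => rw [eq_mul_of_mod hm, pred_div_mul]
      rwa [e]
  · exact Or.inl (by rw [pred_div_of_mod_ne k hm])

lemma F0.edges {a b d : V} (h : F0 a b d) :
    (∃ e, FF b a e) ∧ (∃ e, FF d b e) ∧ ∃ e, FF a d e := by
  rcases h with ⟨k, l, rfl, rfl, rfl⟩ | ⟨k, i, rfl, rfl, rfl⟩
  · refine ⟨?_, ?_, ?_⟩
    · rcases parents k l with h | h
      · exact ⟨_, h ▸ (fanF' k l).rot.rot⟩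
      · exact ⟨_, h.rot.rot⟩
    · have := downF k (l + 1)
      rw [add_sub_cancel_right] at this
      exact ⟨_, this⟩
    · have h := parents k (l + 1)
      rw [add_sub_cancel_right] at h
      rcases h with h | h
      · exact ⟨_, h ▸ fanF k (l + 1)⟩
      · exact ⟨_, h.rot⟩
  · refine ⟨⟨_, (fanF' k i).rot⟩, ?_, ?_⟩
    · have := fanF' (k + 1) (i * M (k + 1))
      rw [pred_div_mul] at this
      exact ⟨_, this.rot.rot⟩
    · have := fanF (k + 1) (i * M (k + 1))
      rw [mul_div_M] at this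
      exact ⟨_, this⟩

lemma FF.edge {a b d : V} (h : FF a b d) : ∃ e, FF b a e := by
  rcases h with h | h | h
  · exact h.edges.1
  · exact h.edges.2.2
  · exact h.edges.2.1

lemma seq_of_transGen {X : Type} {r : X → X → Prop} {a b : X} (h : Relation.TransGen r a b) :
    ∃ n, 0 < n ∧ ∃ p : ℕ → X, p 0 = a ∧ p n = b ∧ ∀ j < n, r (p j) (p (j + 1)) := by
  induction h with
  | @single b h =>
    exact ⟨1, one_pos, fun j => if j = 0 then a else b, by simp, by simp, fun j hj => by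
      obtain rfl : j = 0 := by omega
      simpa using h⟩
  | @tail b c _ h ih =>
    obtain ⟨n, hn, p, p0, pn, hp⟩ := ih
    refine ⟨n + 1, by omega, fun j => if j ≤ n then p j else c, by simpa using p0, by simp,
      fun j hj => ?_⟩
    rcases Nat.lt_succ_iff_lt_or_eq.1 hj with hj | rfl
    · simpa [hj.le, Nat.succ_le_of_lt hj] using hp j hj
    · simpa [pn] using h

lemma fan_path (k : ℕ) (i : ℤ) :
    Relation.TransGen (FF (mk k i)) (mk (k + 1) (i * M k)) (mk (k + 1) ((i + 1) * M k)) := by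
  have key : ∀ j : ℕ, j < mN k → Relation.TransGen (FF (mk k i)) (mk (k + 1) (i * M k))
      (mk (k + 1) (i * M k + j + 1)) := by
    intro j hj
    have f : ∀ j : ℕ, j < mN k →
        FF (mk k i) (mk (k + 1) (i * M k + j)) (mk (k + 1) (i * M k + j + 1)) := by
      intro j hj
      have := fanF k (i * M k + j)
      rwa [blk_div k i hj] at this
    induction j with
    | zero => exact Relation.TransGen.single (by simpa using f 0 hj)
    | succ j ih =>
      refine (ih (by omega)).tail ?_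
      have := f (j + 1) hj
      rwa [Nat.cast_succ, ← add_assoc] at this ⊢
  have h := mN_ge k
  have := key (mN k - 1) (by omega)
  rwa [Nat.cast_sub (by omega), Nat.cast_one, add_assoc, sub_add_cancel, blk_top] at this

lemma flower (v : V) : ∃ n, 0 < n ∧ ∃ p : ℕ → V, p n = p 0 ∧ ∀ j < n, FF v (p j) (p (j + 1)) := by
  have key : ∃ a, Relation.TransGen (FF v) a a := by
    rw [← mk_self v]
    generalize v.1.1 = k
    generalize v.1.2 = i
    have h1 := fan_path k i
    cases k with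
    | zero =>
      have : mk 1 ((i + 1) * M 0) = mk 1 (i * M 0) := by
        have := per_mk 1 (i * M 0)
        rw [← add_nn_mul] at this
        exact this
      rw [this] at h1
      exact ⟨_, h1⟩
    | succ k =>
      have h2 := downF k (i + 1)
      rw [add_sub_cancel_right] at h2
      have h3 := ((h1.tail h2.rot).tail (fanF k i).rot)
      have h4 : Relation.TransGen (FF (mk (k + 1) i)) (mk (k + 1 + 1) (i * M (k + 1)))
          (mk k ((i - 1) / M k)) := by
        rcases parents k i with h | h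
        · rwa [h]
        · exact h3.tail h.rot.rot
      exact ⟨_, (h4.tail (fanF' k i).rot.rot).tail (downF k i)⟩
  obtain ⟨a, ha⟩ := key
  obtain ⟨n, hn, p, p0, pn, hp⟩ := seq_of_transGen ha
  exact ⟨n, hn, p, by rw [p0, pn], hp⟩

/-- A positively oriented triple of mutually tangent circles. -/
structure EFace (x y z : ℂ × ℝ) : Prop where
  t1 : ‖x.1 - y.1‖ = x.2 + y.2
  t2 : ‖y.1 - z.1‖ = y.2 + z.2
  t3 : ‖z.1 - x.1‖ = z.2 + x.2
  pos : 0 < ori x.1 y.1 z.1

lemma EFace.rot {x y z : ℂ × ℝ} (h : EFace x y z) : EFace y z x :=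
  ⟨h.t2, h.t3, h.t1, by rw [ori_rot]; exact h.pos⟩

/-- A Euclidean circle packing of the layered complex. -/
structure Pack (X : ℕ → ℤ → ℂ × ℝ) : Prop where
  per : Per X
  pos : ∀ k i, 0 < (X k i).2
  fan : ∀ k l, EFace (X k (l / M k)) (X (k + 1) l) (X (k + 1) (l + 1))
  down : ∀ k i, EFace (X (k + 1) i) (X (k + 1) (i - 1)) (X (k + 2) (i * M (k + 1)))

lemma Pack.face {X : ℕ → ℤ → ℂ × ℝ} (h : Pack X) {a b d : V} (hF : FF a b d) :
    EFace (lift X a) (lift X b) (lift X d) := by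
  have key : ∀ {a b d : V}, F0 a b d → EFace (lift X a) (lift X b) (lift X d) := by
    rintro a b d (⟨k, l, rfl, rfl, rfl⟩ | ⟨k, i, rfl, rfl, rfl⟩) <;> simp only [lift_mk h.per]
    · exact h.fan k l
    · exact h.down k i
  rcases hF with hF | hF | hF
  · exact key hF
  · exact (key hF).rot.rot
  · exact (key hF).rot

/-- Layer sizes as natural numbers. -/
def NN (k : ℕ) : ℕ := (nn k).toNat

lemma NN_cast (k : ℕ) : (NN k : ℤ) = nn k := Int.toNat_of_nonneg (nn_pos k).le
lemma NN_succ (k : ℕ) : NN (k + 1) = NN k * mN k := by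
  have : (NN (k + 1) : ℤ) = (NN k * mN k : ℕ) := by
    push_cast; rw [NN_cast, NN_cast]; rfl
  exact_mod_cast this

/-- Indices of faces. -/
abbrev Ix : Type := (Σ _ : ℕ, ℕ) ⊕ (Σ _ : ℕ, ℕ)

/-- The face with a given index. -/
def tri : Ix → V × V × V
  | Sum.inl x => (mk x.1 (x.2 / M x.1), mk (x.1 + 1) x.2, mk (x.1 + 1) (x.2 + 1))
  | Sum.inr x => (mk (x.1 + 1) x.2, mk (x.1 + 1) (x.2 - 1), mk (x.1 + 2) (x.2 * M (x.1 + 1)))

/-- The faces inside ring `K + 1`. -/
def SS (K : ℕ) : Finset Ix :=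
  ((range (K + 1)).sigma fun k => range (NN (k + 1))).disjSum
    ((range K).sigma fun k => range (NN (k + 1)))

lemma tri_FF (x : Ix) : FF (tri x).1 (tri x).2.1 (tri x).2.2 := by
  rcases x with x | x
  · exact fanF _ _
  · exact downF _ _

lemma F0.exists_ix {a b d : V} (h : F0 a b d) : ∃ x, tri x = (a, b, d) ∧ ∃ k, (∀ K, k < K → x ∈ SS K) ∧
    k ≤ a.1.1 ∧ k ≤ b.1.1 ∧ k ≤ d.1.1 := by
  have nat : ∀ k (l : ℤ), (((l % nn k).toNat : ℕ) : ℤ) = l % nn k ∧ (l % nn k).toNat < NN k := by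
    intro k l
    have h1 := Int.emod_nonneg l (nn_pos k).ne'
    have h2 := Int.emod_lt_of_pos l (nn_pos k)
    have := NN_cast k
    exact ⟨Int.toNat_of_nonneg h1, by omega⟩
  rcases h with ⟨k, l, rfl, rfl, rfl⟩ | ⟨k, l, rfl, rfl, rfl⟩
  · refine ⟨Sum.inl ⟨k, (l % nn (k + 1)).toNat⟩, ?_, k, fun K hK => ?_, le_rfl, Nat.le_succ k,
      Nat.le_succ k⟩
    · simp only [tri, (nat _ _).1]
      refine per_emod (g := fun l => (mk k (l / M k), mk (k + 1) l, mk (k + 1) (l + 1)))
        (fun l => ?_) l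
      simp only [add_nn_div, per_mk k, per_mk (k + 1), add_right_comm l (nn (k + 1)) 1]
    · simp only [SS, inl_mem_disjSum, mem_sigma, mem_range]
      exact ⟨by omega, (nat _ _).2⟩
  · refine ⟨Sum.inr ⟨k, (l % nn (k + 1)).toNat⟩, ?_, k, fun K hK => ?_, Nat.le_succ k,
      Nat.le_succ k, Nat.le_add_right k 2⟩
    · simp only [tri, (nat _ _).1]
      refine per_emod (g := fun l => (mk (k + 1) l, mk (k + 1) (l - 1), mk (k + 2) (l * M (k + 1))))
        (fun l => ?_) l
      simp only [add_nn_mul, per_mk (k + 1), per_mk (k + 1 + 1), add_sub_right_comm l (nn (k + 1)) 1]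
    · simp only [SS, inr_mem_disjSum, mem_sigma, mem_range]
      exact ⟨hK, (nat _ _).2⟩

lemma FF.exists_ix {a b d : V} (h : FF a b d) : ∃ x, (tri x = (a, b, d) ∨ tri x = (b, d, a) ∨
    tri x = (d, a, b)) ∧ ∃ k, (∀ K, k < K → x ∈ SS K) ∧ k ≤ a.1.1 ∧ k ≤ b.1.1 ∧ k ≤ d.1.1 := by
  rcases h with h | h | h <;> obtain ⟨x, h1, k, h2, h3, h4, h5⟩ := h.exists_ix
  · exact ⟨x, Or.inl h1, k, h2, h3, h4, h5⟩
  · exact ⟨x, Or.inr (Or.inl h1), k, h2, h5, h3, h4⟩
  · exact ⟨x, Or.inr (Or.inr h1), k, h2, h4, h5, h3⟩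

lemma sum_blocks (f : ℕ → ℤ) (n m : ℕ) :
    ∑ l ∈ range (n * m), f l = ∑ i ∈ range n, ∑ j ∈ range m, f (i * m + j) := by
  induction n with
  | zero => simp
  | succ n ih => rw [add_mul, one_mul, sum_range_add, ih, sum_range_succ]

section tel
variable (e : V → V → ℤ)

/-- The sum of `e` over ring `k`. -/
def ringS (k : ℕ) : ℤ := ∑ i ∈ range (NN k), e (mk k i) (mk k (i + 1))

/-- The sum of `e` around a face. -/
def triS (x : Ix) : ℤ := e (tri x).1 (tri x).2.1 + e (tri x).2.1 (tri x).2.2 + e (tri x).2.2 (tri x).1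

variable {e}

lemma fan_sum (he : ∀ a b, e b a = -e a b) (k : ℕ) :
    ∑ l ∈ range (NN (k + 1)), triS e (Sum.inl ⟨k, l⟩) = ringS e (k + 1) +
      ∑ i ∈ range (NN k), (e (mk k i) (mk (k + 1) (i * M k)) -
        e (mk k i) (mk (k + 1) ((i + 1) * M k))) := by
  have : ∀ l : ℕ, triS e (Sum.inl ⟨k, l⟩) = e (mk (k + 1) l) (mk (k + 1) (l + 1)) +
      (e (mk k (l / M k)) (mk (k + 1) l) - e (mk k (l / M k)) (mk (k + 1) (l + 1))) := by
    intro l
    simp only [triS, tri]
    rw [he (mk k (l / M k)) (mk (k + 1) (l + 1))]; ring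
  simp only [this, sum_add_distrib, ringS]
  congr 1
  rw [NN_succ, sum_blocks]
  refine sum_congr rfl fun i _ => ?_
  have h2 := sum_range_sub' (fun j : ℕ => e (mk k i) (mk (k + 1) (i * M k + j))) (mN k)
  simp only [Nat.cast_zero, add_zero, blk_top] at h2
  rw [← h2]
  refine sum_congr rfl fun j hj => ?_
  have e1 : ((i * mN k + j : ℕ) : ℤ) = i * M k + j := by push_cast; rfl
  rw [e1, blk_div k i (mem_range.1 hj), Nat.cast_succ, add_assoc]

lemma sum_shift {g : ℤ → ℤ} {k : ℕ} (hg : g (nn k) = g 0) :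
    ∑ i ∈ range (NN k), g (i + 1) = ∑ i ∈ range (NN k), g i := by
  have h2 := sum_range_sub (fun j : ℕ => g j) (NN k)
  rw [NN_cast, Nat.cast_zero, hg, sub_self, sum_sub_distrib] at h2
  push_cast at h2
  linarith

lemma down_sum (he : ∀ a b, e b a = -e a b) (k : ℕ) :
    ∑ i ∈ range (NN (k + 1)), triS e (Sum.inr ⟨k, i⟩) = -ringS e (k + 1) -
      ∑ i ∈ range (NN (k + 1)), (e (mk (k + 1) i) (mk (k + 2) (i * M (k + 1))) -
        e (mk (k + 1) i) (mk (k + 2) ((i + 1) * M (k + 1)))) := by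
  have h1 := sum_shift (k := k + 1) (g := fun i => e (mk (k + 1) i) (mk (k + 1) (i - 1)) +
    e (mk (k + 1) (i - 1)) (mk (k + 2) (i * M (k + 1)))) (by
      have a1 := per_mk (k + 1) 0
      have a2 := per_mk (k + 1) (0 - 1)
      have a3 := per_mk (k + 1 + 1) (0 * M (k + 1))
      rw [← add_nn_mul] at a3
      rw [← add_sub_right_comm] at a2
      rw [zero_add] at a1 a2 a3
      simp only [a1, a2, a3])
  simp only [add_sub_cancel_right] at h1
  simp only [triS, tri, ringS]
  rw [sum_add_distrib, ← h1, ← sum_add_distrib, ← sum_neg_distrib, ← sum_sub_distrib]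
  refine sum_congr rfl fun i _ => ?_
  rw [he (mk (k + 1) i) (mk (k + 1) (i + 1)), he (mk (k + 1) i) (mk (k + 2) (i * M (k + 1)))]
  ring

lemma total_sum (he : ∀ a b, e b a = -e a b) (K : ℕ) :
    ∑ x ∈ SS K, triS e x = ringS e (K + 1) := by
  rw [SS, sum_disjSum, sum_sigma, sum_sigma]
  induction K with
  | zero =>
    have : mk 1 (((0 : ℕ) + 1 : ℤ) * M 0) = mk 1 ((0 : ℕ) * M 0) := by
      have := per_mk 1 (0 * M 0)
      rw [← add_nn_mul] at this
      exact this
    have h1 : NN 0 = 1 := rfl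
    rw [zero_add, sum_range_one, fan_sum he, h1, sum_range_one, this]
    simp
  | succ K ih =>
    rw [sum_range_succ _ (K + 1), fan_sum he (K + 1),
      sum_range_succ (fun a => ∑ s ∈ range (NN (a + 1)), triS e (Sum.inr ⟨a, s⟩)) K, down_sum he]
    linarith

end tel

end Pool.Agent.P.MP_3555ad_an.BD
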