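import Pool.Agent.P.MP_3555ad_an.BD.Image

set_option autoImplicit false

namespace Pool.Agent.P.MP_3555ad_an.BD

open Real Filter Topology MeasureTheory Metric

/-- A list of the neighbours of a vertex. -/
def nb (k : ℕ) (i : ℤ) (n : Fin 4 ⊕ Fin (2 * hN + 1)) : V :=
  match n with
  | Sum.inl 0 => mk k (i + 1)
  | Sum.inl 1 => mk k (i - 1)
  | Sum.inl 2 => mk (k - 1) (i / M (k - 1))
  | Sum.inl 3 => mk (k - 1) ((i - 1) / M (k - 1))
  | Sum.inr j => mk (k + 1) (i * M k + (j : ℕ))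

lemma nb_per : Per nb := by
  intro k i
  funext n
  have key : ∀ i, mk (k - 1) ((i + nn k) / M (k - 1)) = mk (k - 1) (i / M (k - 1)) := by
    intro i
    cases k with
    | zero => exact mk_zero _ _
    | succ k => rw [Nat.add_sub_cancel, add_nn_div, per_mk]
  match n with
  | Sum.inl 0 => simp only [nb]; rw [add_right_comm, per_mk]
  | Sum.inl 1 => simp only [nb]; rw [add_sub_right_comm, per_mk]
  | Sum.inl 2 => exact key i
  | Sum.inl 3 => simp only [nb]; rw [add_sub_right_comm, key]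
  | Sum.inr j => simp only [nb]; rw [add_nn_mul, add_right_comm, per_mk]

lemma FF.mem_nb {x y w : V} (h : FF x y w) : x ∈ Set.range (lift nb y) := by
  rcases h with (⟨k, l, a, b, c⟩ | ⟨k, l, a, b, c⟩) | (⟨k, l, a, b, c⟩ | ⟨k, l, a, b, c⟩) |
    (⟨k, l, a, b, c⟩ | ⟨k, l, a, b, c⟩)
  · rw [a, b, lift_mk nb_per]; exact ⟨Sum.inl 2, rfl⟩
  · rw [a, b, lift_mk nb_per]; exact ⟨Sum.inl 0, by simp only [nb, sub_add_cancel]⟩
  · rw [a, c, lift_mk nb_per]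
    obtain ⟨j, hj, e, -⟩ := blk_ex k l
    refine ⟨Sum.inr ⟨j + 1, by rw [mN_eq] at hj; omega⟩, ?_⟩
    simp only [nb]
    rw [Nat.cast_add, Nat.cast_one, ← add_assoc, ← e]
  · rw [a, c, lift_mk nb_per]; exact ⟨Sum.inr ⟨0, by omega⟩, by simp [nb]⟩
  · rw [b, c, lift_mk nb_per]; exact ⟨Sum.inl 1, by simp only [nb, add_sub_cancel_right]⟩
  · rw [b, c, lift_mk nb_per]
    exact ⟨Sum.inl 3, by simp only [nb]; exact congrArg _ (pred_div_mul _ _)⟩

/-- A nontangential approach along which the images do not converge. -/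
def BadV (Z z : V → ℂ) (ζ : ℂ) : Prop :=
  ∃ v : ℕ → V, Tendsto (fun j => Z (v j)) atTop (𝓝 ζ) ∧
    (∃ C : ℝ, ∀ j, ‖ζ - Z (v j)‖ ≤ C * (1 - ‖Z (v j)‖)) ∧
    ¬∃ w, Tendsto (fun j => z (v j)) atTop (𝓝 w)

lemma bad_of {Z z : V → ℂ} {ζ : ℂ} {C c : ℝ} (c0 : 0 < c)
    (H : ∀ k : ℕ, ∃ u v, (‖ζ - Z u‖ ≤ C * (1 - ‖Z u‖) ∧ ‖ζ - Z u‖ ≤ C * eps k) ∧
      (‖ζ - Z v‖ ≤ C * (1 - ‖Z v‖) ∧ ‖ζ - Z v‖ ≤ C * eps k) ∧ c ≤ ‖z u - z v‖) : BadV Z z ζ := by
  choose u v h1 h2 h3 using H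
  refine ⟨fun j => if j % 2 = 0 then u (j / 2) else v (j / 2), ?_, ⟨C, fun j => ?_⟩, ?_⟩
  · rw [tendsto_iff_norm_sub_tendsto_zero]
    refine squeeze_zero (g := fun j => C * eps (j / 2)) (fun _ => norm_nonneg _) (fun j => ?_) ?_
    · rw [norm_sub_rev]
      dsimp only
      split_ifs
      exacts [(h1 _).2, (h2 _).2]
    · have := (eps_tendsto.comp (Nat.tendsto_div_const_atTop two_ne_zero)).const_mul C
      simpa using this
  · dsimp only
    split_ifs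
    exacts [(h1 _).1, (h2 _).1]
  · rintro ⟨w, hw⟩
    have t0 : Tendsto (fun j : ℕ => 2 * j) atTop atTop := tendsto_id.const_mul_atTop' two_pos
    have t1 := ((hw.comp t0).sub (hw.comp ((tendsto_add_atTop_nat 1).comp t0))).norm
    rw [sub_self, norm_zero] at t1
    obtain ⟨j, hj⟩ := (t1.eventually (gt_mem_nhds c0)).exists
    simp only [Function.comp] at hj
    rw [if_pos (by omega), if_neg (by omega), show 2 * j / 2 = j by omega,
      show (2 * j + 1) / 2 = j by omega] at hj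
    linarith [h3 j]

lemma ray_est {z : ℂ} {t x d : ℝ} (hz : z = ‖z‖ • ex x) (h1 : ‖z‖ ≤ 1) (h : |t - x| ≤ d) :
    ‖ex t - z‖ ≤ d + (1 - ‖z‖) := by
  have m3 : ‖ex x - z‖ = 1 - ‖z‖ := by
    nth_rewrite 1 [hz]
    rw [show ∀ y : ℝ, ex x - y • ex x = (1 - y) • ex x from fun y => by module, norm_smul, norm_ex,
      mul_one, Real.norm_eq_abs, abs_of_nonneg (by linarith)]
  linarith [norm_sub_le_norm_sub_add_norm_sub (ex t) (ex x) z, norm_ex_sub t x]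

variable {η : ℕ → ℤ → ℝ} {U : ℕ → ℤ → Cir} {a : ℕ → ℤ → ℝ}

lemma Args.stolz (h : Lab η) (L : Lay η U) (A : Args U a) {k k0 : ℕ} (hk : k0 ≤ k) {i : ℤ} {t : ℝ}
    (ht : |t - a k i| ≤ 161 * (U (k + 1) i).τ⁻¹) :
    (‖ex t - cen (U (k + 1) i)‖ ≤ 400 * (1 - ‖cen (U (k + 1) i)‖) ∧
      ‖ex t - cen (U (k + 1) i)‖ ≤ 400 * eps k0) ∧
    ‖ex t - hc (U (k + 1) i)‖ ≤ 10 ^ 233 * (1 - ‖hc (U (k + 1) i)‖) ∧
      ‖ex t - hc (U (k + 1) i)‖ ≤ 10 ^ 233 * eps k0 := by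
  have o := L.ok h (k + 1) i
  have g := L.gt h (k + 1) i
  have p := o.pos
  have q := inv_pos.2 p
  have t1 := L.tau_ge' h k i
  have e1 : (U (k + 1) i).η ≤ 101 / 100 := by rw [L.lab]; exact h.le _ _
  have r5 : (U (k + 1) i).τ⁻¹ ≤ eps k0 :=
    (inv_anti₀ (by positivity) (L.tau_ge h k i)).trans (eps_anti hk)
  have r1 := o.rad_le
  have r2 : (U (k + 1) i).τ⁻¹ ≤ 2 * rad (U (k + 1) i) := by
    rw [rad, ← div_eq_mul_inv, inv_eq_one_div, div_le_div_iff₀ p (by linarith)]; linarith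
  have r3 := o.inside
  have r4 := L.cen_ge h (k + 1) i
  have c1 := ray_est (A.pol_cen h L k i) (by linarith) ht
  have s1 := h.le_sv (k + 1) i
  rw [mN_cast, ← L.lab] at s1
  have s2 := hc_lower o g
  have s3 := hc_upper o g (by rw [L.lab]; linarith [h.sv_small (k + 1) i]) (by linarith)
  have s4 : (U (k + 1) i).τ⁻¹ ≤ 2 * 10 ^ 230 * (sv (U (k + 1) i).η / (2 * (U (k + 1) i).τ)) := by
    rw [← mul_div_assoc, inv_eq_one_div, div_le_div_iff₀ p (by positivity)]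
    nlinarith
  have c2 := ray_est (z := hc (U (k + 1) i)) (x := a k i)
    (by rw [norm_hc o, div_eq_inv_mul, mul_smul, ← A.pol]; rfl) (by linarith) ht
  clear hk
  exact ⟨⟨by linarith, by linarith⟩, by linarith, by linarith⟩

theorem core : ∃ (c H z : V → ℂ) (r ρ : V → ℝ) (m : Mesh c FF),
    m.complex.space = ball 0 1 ∧
    (∀ t < 1, {s ∈ m.complex.faces |
      (convexHull ℝ (s : Set ℂ) ∩ closedBall 0 t).Nonempty}.Finite) ∧
    (∀ v, 0 < r v ∧ ‖c v‖ + r v < 1) ∧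
    (∀ x y w, FF x y w → EFace (c x, r x) (c y, r y) (c w, r w)) ∧
    (∀ v, 0 < ρ v ∧ ‖z v‖ + ρ v ≤ 1) ∧
    (∀ x y w, FF x y w → EFace (z x, ρ x) (z y, ρ y) (z w, ρ w)) ∧
    (∀ v, ‖H v‖ < 1 ∧ ∃ q : ℝ, ∀ w, ‖w - c v‖ = r v →
      ‖w - H v‖ = q * ‖1 - (starRingEnd ℂ) (H v) * w‖) ∧
    ∀ᵐ t : ℝ, BadV c z (ex t) ∧ BadV H z (ex t) := by
  obtain ⟨η, h⟩ := exists_lab
  obtain ⟨U, L⟩ := exists_lay h
  obtain ⟨a, A⟩ := exists_args h L
  obtain ⟨X, I⟩ := exists_img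
  refine ⟨cV U, fun v => hc (lift U v), cV X, rV U, rV X,
    A.mesh h L, A.space h L, fun t ht => A.finite h L ht, fun v => ⟨L.rV_pos h v, L.inside h v⟩,
    fun x y w hF => (L.pack h).face hF, fun v => ⟨(I.ok _ _).rad_pos, (I.ok _ _).inside⟩,
    fun x y w hF => I.pack.face hF, fun v => ⟨?_, _, hc_spec (L.ok h _ _) (L.gt h _ _)⟩, ?_⟩
  · have := hc_lower (L.ok h v.1.1 v.1.2) (L.gt h _ _)
    have h2 := div_pos (sv_pos (L.gt h v.1.1 v.1.2)) (mul_pos two_pos (L.ok h v.1.1 v.1.2).pos)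
    simp only [lift]
    linarith
  · filter_upwards [A.ae_good h L I.pot (by norm_num) (by norm_num)] with t ht
    have far : ∀ k i, 1 / 10 ^ 222 ≤ rad (X (k + 1) i) →
        1 / 10 ^ 222 ≤ ‖cV X (mk (k + 1) i) - cV X (mk (k + 1) (i - 1))‖ := by
      intro k i hi
      rw [cV, cV, lift_mk I.pack.per, lift_mk I.pack.per]
      have := (I.pack.down k i).t1
      have h2 := I.pack.pos (k + 1) (i - 1)
      simp only [euc] at this h2 ⊢
      linarith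
    constructor
    · refine bad_of (C := 400) (c := 1 / 10 ^ 222) (by norm_num) fun k0 => ?_
      obtain ⟨k, hk, i, ⟨n1, n2⟩, g⟩ := ht k0
      exact ⟨mk (k + 1) i, mk (k + 1) (i - 1), by rw [cV_mk h L]; exact (A.stolz h L hk n1).1,
        by rw [cV_mk h L]; exact (A.stolz h L hk n2).1, far k i g⟩
    · refine bad_of (C := 10 ^ 233) (c := 1 / 10 ^ 222) (by norm_num) fun k0 => ?_
      obtain ⟨k, hk, i, ⟨n1, n2⟩, g⟩ := ht k0
      exact ⟨mk (k + 1) i, mk (k + 1) (i - 1), by rw [lift_mk L.per]; exact (A.stolz h L hk n1).2,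
        by rw [lift_mk L.per]; exact (A.stolz h L hk n2).2, far k i g⟩

end Pool.Agent.P.MP_3555ad_an.BD
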