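import Pool.Agent.P.MP_3555ad_an.BD.Height

set_option autoImplicit false

namespace Pool.Agent.P.MP_3555ad_an.BD

open Real Finset

/-- The labels of the children of a vertex of type `ty`. -/
noncomputable def YY (ty : ℕ) (t t' : ℝ) (j : ℕ) : ℝ :=
  if ty = 1 ∧ 1 ≤ j ∧ j ≤ 8 then t
  else if (ty = 1 ∧ j = 9) ∨ (ty = 2 ∧ (j = 1 ∨ j = 2)) then 10 ^ 30
  else if jN < j ∧ j + jN < 2 * hN then t' else 10 ^ 220

/-- The new petals `s 0 = x, …, s (2 * hN) = y` of a circle `v` of type `ty`. -/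
structure Fl (v x y : Cir) (ty : ℕ) (s : ℕ → Cir) : Prop where
  zero : s 0 = x
  last : s (2 * hN) = y
  face : ∀ j, Face v (s j) (s (j + 1))
  lo : ∀ j, 10 ^ 30 ≤ (s j).η
  hi : ∀ j, (s j).η ≤ 10 ^ 221
  lab0 : ty = 0 → ∀ j ≤ jN, (s j).η = 10 ^ 220
  lab1 : ty = 1 → (s 9).η = 10 ^ 30 ∧ ∀ j ≤ jN, j ≠ 9 → 10 ^ 219 ≤ (s j).η
  lab2 : ty = 2 → (s 1).η = 10 ^ 30 ∧ (s 2).η = 10 ^ 30 ∧
    ∀ j ≤ jN, j ≠ 1 → j ≠ 2 → (s j).η = 10 ^ 220
  labU : ∀ j, 2 * hN ≤ j + jN → (s j).η = 10 ^ 220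
  aim : ty = 1 → ip v.ζ (dir v (s 9)) = 0 ∧ cp v.ζ (dir v (s 9)) ≤ 0

lemma exists_aim (c : ℂ) : ∃ D : ℂ, ‖D‖ = 1 ∧ ip c D = 0 ∧ cp c D ≤ 0 := by
  have h := pol_step (z := 1) (x := 0) (by simp) one_ne_zero c
  refine ⟨ex (0 + Complex.arg (c / 1) - π / 2), norm_ex _, ?_, ?_⟩
  · rw [ip_pol h (y := 0 + Complex.arg (c / 1) - π / 2) (by simp)]
    simp
  · rw [cp_pol h (y := 0 + Complex.arg (c / 1) - π / 2) (by simp)]
    simp

lemma flower_ex (v x y : Cir) (ty : ℕ) : ∃ s : ℕ → Cir, Ok v → 10 ^ 30 ≤ v.η → v.η ≤ 10 ^ 221 →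
    Ok x → Tang v x → x.η = 10 ^ 220 → Ok y → Tang v y → y.η = 10 ^ 220 →
    (ty = 1 → v.η = 10 ^ 220) → Fl v x y ty s := by
  by_cases H : Ok v ∧ 10 ^ 30 ≤ v.η ∧ v.η ≤ 10 ^ 221 ∧ Ok x ∧ Tang v x ∧ x.η = 10 ^ 220 ∧ Ok y ∧
    Tang v y ∧ y.η = 10 ^ 220 ∧ (ty = 1 → v.η = 10 ^ 220)
  swap
  · exact ⟨fun _ => v, fun a b c d e f g h i j => absurd ⟨a, b, c, d, e, f, g, h, i, j⟩ H⟩
  obtain ⟨hv, v1, v2, hx, tx, x1, hy, tz, y1, t1⟩ := H
  suffices h : ∃ s, Fl v x y ty s by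
    obtain ⟨s, hs⟩ := h
    exact ⟨s, fun _ _ _ _ _ _ _ _ _ _ => hs⟩
  have h1 : 1 < v.η := by linarith
  have j1 := jN_ge
  have j2 := jN_le
  have ux := (view_tang hv h1 hx tx).2
  have lo : ∀ t t' : ℝ, 10 ^ 30 ≤ t → 10 ^ 30 ≤ t' → ∀ j, 10 ^ 30 ≤ YY ty t t' j := by
    intro t t' a b j
    unfold YY
    split_ifs
    exacts [a, le_rfl, b, by norm_num]
  obtain ⟨D, d1, d2⟩ := exists_aim v.ζ
  obtain ⟨t, ⟨a1, a2⟩, a3⟩ : ∃ t ∈ Set.Icc (10 ^ 220 / 3 : ℝ) (10 ^ 221), ty = 1 →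
      dir v x * ex (∑ j ∈ range 9, ang v.η (YY ty t (10 ^ 220) j) (YY ty t (10 ^ 220) (j + 1))) =
        D := by
    by_cases h : ty = 1
    · obtain ⟨t, a1, a2⟩ := hit_sum (η := v.η) (t1 := 10 ^ 220 / 3) (t2 := 10 ^ 221) (d := 1)
        (Y := fun t => YY ty t (10 ^ 220)) h1.le (by norm_num)
        (fun j => by unfold YY; split_ifs <;> fun_prop)
        (fun t ht j => le_trans (by norm_num) (lo t _ (le_trans (by norm_num) ht) (by norm_num) j))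
        (fun j => by unfold YY; split_ifs <;> norm_num) (lo := 1) (hi := 8) (n := 9) (by norm_num)
        (by norm_num) (fun j b1 b2 => by
          unfold YY
          rw [if_pos ⟨h, b1, b2.le⟩, if_pos ⟨h, by omega, b2⟩, if_pos ⟨h, b1, b2.le⟩,
            if_pos ⟨h, by omega, b2⟩, t1 h]
          exact ang_gap') (by norm_num) ux d1
      exact ⟨t, a1, fun _ => a2⟩
    · exact ⟨10 ^ 221, ⟨by norm_num, le_rfl⟩, fun h' => absurd h' h⟩
  have a0 : 10 ^ 30 ≤ t := le_trans (by norm_num) a1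
  obtain ⟨t', ⟨b1, b2⟩, b3⟩ := hit_sum (η := v.η) (t1 := 10 ^ 220) (t2 := 10 ^ 221)
    (d := 1 / 10 ^ 222) (Y := fun t' => YY ty t t') h1.le (by norm_num)
    (fun j => by unfold YY; split_ifs <;> fun_prop)
    (fun t' ht j => le_trans (by norm_num) (lo t t' a0 (le_trans (by norm_num) ht) j))
    (fun j => by unfold YY; split_ifs <;> norm_num) (lo := jN + 1) (hi := hN) (n := 2 * hN)
    (by omega) (by omega) (fun j c1 c2 => by
      unfold YY
      rw [if_neg (by omega), if_neg (by omega), if_pos (by omega), if_neg (by omega),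
        if_neg (by omega), if_pos (by omega), if_neg (by omega), if_neg (by omega),
        if_pos (by omega), if_neg (by omega), if_neg (by omega), if_pos (by omega)]
      exact ang_gap v1 v2) (by rw [jN_eq, hN_eq]; norm_num) ux (view_tang hv h1 hy tz).2
  have b0 : 10 ^ 30 ≤ t' := le_trans (by norm_num) b1
  have s0 : x.η = YY ty t t' 0 := by
    unfold YY; rw [if_neg (by omega), if_neg (by omega), if_neg (by omega), x1]
  have y0 : ∀ j, 1 ≤ YY ty t t' j := fun j => le_trans (by norm_num) (lo t t' a0 b0 j)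
  have sp := chain_spec hv h1 hx tx s0 y0
  have labU : ∀ j, 2 * hN ≤ j + jN → YY ty t t' j = 10 ^ 220 := fun j hj => by
    unfold YY; rw [if_neg (by omega), if_neg (by omega), if_neg (by omega)]
  refine ⟨chain v x (YY ty t t'), rfl, ?_, chain_face hv h1 hx tx s0 y0, fun j => ?_, fun j => ?_,
    fun h j hj => ?_, fun h => ⟨?_, fun j hj h9 => ?_⟩, fun h => ⟨?_, ?_, fun j hj c1 c2 => ?_⟩,
    fun j hj => ?_, fun h => ?_⟩
  · obtain ⟨c1, c2, c3, c4⟩ := sp (2 * hN)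
    rw [eq_petal hv h1 c1 c2, c3, c4, b3, labU _ (by omega), ← y1, ← eq_petal hv h1 hy tz]
  · rw [(sp j).2.2.1]; exact lo t t' a0 b0 j
  · rw [(sp j).2.2.1]; unfold YY; split_ifs
    exacts [a2, by norm_num, b2, by norm_num]
  · rw [(sp j).2.2.1]; unfold YY; rw [if_neg (by omega), if_neg (by omega), if_neg (by omega)]
  · rw [(sp 9).2.2.1]; unfold YY; rw [if_neg (by omega), if_pos (by omega)]
  · rw [(sp j).2.2.1]; unfold YY
    by_cases c : ty = 1 ∧ 1 ≤ j ∧ j ≤ 8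
    · rw [if_pos c]; exact le_trans (by norm_num) a1
    · rw [if_neg c, if_neg (by omega), if_neg (by omega)]; norm_num
  · rw [(sp 1).2.2.1]; unfold YY; rw [if_neg (by omega), if_pos (by omega)]
  · rw [(sp 2).2.2.1]; unfold YY; rw [if_neg (by omega), if_pos (by omega)]
  · rw [(sp j).2.2.1]; unfold YY; rw [if_neg (by omega), if_neg (by omega), if_neg (by omega)]
  · rw [(sp j).2.2.1, labU j hj]
  · have e : ∀ j ≤ 9, YY ty t t' j = YY ty t (10 ^ 220) j := fun j hj => by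
      unfold YY; rw [if_neg (show ¬(jN < j ∧ j + jN < 2 * hN) by omega), ite_self]
    rw [(sp 9).2.2.2, sum_congr rfl fun j hj => by
      rw [e j (by rw [mem_range] at hj; omega), e (j + 1) (by rw [mem_range] at hj; omega)], a3 h]
    exact d2

/-- Seen from `v`, the petal `u` is at a right angle from the origin. -/
def Aim (v u : Cir) : Prop := ∃ D : ℂ, ‖D‖ = 1 ∧ ‖dir v u - D‖ ≤ 1 / 10 ^ 30 ∧
  |ip v.ζ D| ≤ 2 / 10 ^ 30 * v.τ ∧ 0 ≤ cp v.ζ D

variable {v u x y : Cir} {ty : ℕ} {s : ℕ → Cir}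

lemma Fl.tang (F : Fl v x y ty s) (j : ℕ) : Tang v (s j) := (F.face j).tab
lemma Fl.ok (F : Fl v x y ty s) (j : ℕ) : Ok (s j) := (F.face j).ob

lemma Fl.all (F : Fl v x y ty s) (v1 : 10 ^ 30 ≤ v.η) (hu : Ok u) (tu : Tang v u) (j : ℕ) :
    (s j).τ ≤ (s j).η * (2 * ht v u) := by
  have hv := (F.face j).oa
  have h1 : 1 < v.η := by linarith
  have := near hv (by linarith) hu tu (F.ok j) (F.tang j) (d := 2) (c := 1 / 2) (c' := 1 / 2)
    ((norm_sub_le _ _).trans (by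
      rw [(view_tang hv h1 hu tu).2, (view_tang hv h1 (F.ok j) (F.tang j)).2]; norm_num))
    (by linarith [F.lo j]) (by linarith)
  norm_num at this
  exact this

lemma Fl.side (F : Fl v x y ty s) (v1 : 10 ^ 30 ≤ v.η) (hu : Face u v y) {j : ℕ}
    (h1 : 2 * hN ≤ j + jN) (h2 : j ≤ 2 * hN) :
    (s j).τ ≤ (s j).η * ((1 + 1 / 10 ^ 57) * ht v u) := by
  have a1 := dir_steps F.face v1 h2 h1 fun i hi _ => F.labU i (by omega)
  have a2 := dir_step hu.rot v1 (Or.inl (by rw [← F.last]; exact F.labU _ (by omega)))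
  rw [F.last, norm_sub_rev] at a1
  rw [norm_sub_rev] at a2
  have a3 := F.labU j h1
  clear h1 h2
  have := near hu.ob (by linarith) hu.oa hu.tab.symm (F.ok j) (F.tang j)
    (d := v.η * (5 / 10 ^ 65)) (c := 1 / 10 ^ 57 - 1 / 10 ^ 60) (c' := 1 / 10 ^ 60)
    (by linarith [norm_sub_le_norm_sub_add_norm_sub (dir v (s j)) (dir v y) (dir v u)])
    (by rw [a3]; norm_num) (by linarith)
  rwa [add_assoc, sub_add_cancel] at this

lemma Fl.typ0 (F : Fl v x y 0 s) (v1 : 10 ^ 30 ≤ v.η) (hu : Face v u x) {j : ℕ} (h1 : j ≤ jN) :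
    (s j).τ ≤ (s j).η * ((1 + 1 / 10 ^ 57) * ht v u) := by
  have a1 := dir_steps F.face v1 (Nat.zero_le j) (by omega) fun i _ hi => F.lab0 rfl i (by omega)
  have a2 := dir_step hu v1 (Or.inr (by rw [← F.zero]; exact F.lab0 rfl _ (by omega)))
  rw [F.zero] at a1
  have a3 := F.lab0 rfl j h1
  clear h1
  have := near hu.oa (by linarith) hu.ob hu.tab (F.ok j) (F.tang j)
    (d := v.η * (5 / 10 ^ 65)) (c := 1 / 10 ^ 57 - 1 / 10 ^ 60) (c' := 1 / 10 ^ 60)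
    (by linarith [norm_sub_le_norm_sub_add_norm_sub (dir v (s j)) (dir v x) (dir v u)])
    (by rw [a3]; norm_num) (by linarith)
  rwa [add_assoc, sub_add_cancel] at this

lemma Fl.typ1 (F : Fl v x y 1 s) (v1 : v.η = 10 ^ 220) (hu : Ok u) (tu : Tang v u) {j : ℕ}
    (h1 : j ≤ jN) : (s j).τ ≤ (s j).η * ((1 + 1 / 10 ^ 57) * ht v u) := by
  have hv := (F.face j).oa
  have h2 : 1 < v.η := by rw [v1]; norm_num
  by_cases h9 : j = 9
  · subst h9
    have e1 := tau_dir hv h2 (F.ok 9) (F.tang 9)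
    have e2 := ht_dir hv h2 hu tu
    have i3 := (abs_le.1 (ip_unit hv (view_tang hv h2 hu tu).2)).1
    refine le_of_mul_le_mul_right ?_ (pow_pos (sv_pos h2) 2)
    rw [e1, mul_assoc, mul_assoc, e2, (F.aim rfl).1, (F.lab1 rfl).1, v1]
    clear h1
    linarith [hv.pos]
  · have a3 := (F.lab1 rfl).2 j h1 h9
    clear h1
    have := near hv (by linarith) hu tu (F.ok j) (F.tang j) (d := 2)
      (c := 1 / 10 ^ 57 - 1 / 10 ^ 60) (c' := 1 / 10 ^ 60) ((norm_sub_le _ _).trans (by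
        rw [(view_tang hv h2 hu tu).2, (view_tang hv h2 (F.ok j) (F.tang j)).2]; norm_num))
      (by linarith) (by linarith)
    rwa [add_assoc, sub_add_cancel] at this

lemma Fl.next (F : Fl v x y 1 s) (v1 : v.η = 10 ^ 220) : Aim (s 9) (s 8) := by
  have f := (F.face 8).rot.rot
  have hv := f.ob
  have hT := f.oa
  have T1 := (F.lab1 rfl).1
  have h1 : 1 < v.η := by rw [v1]; norm_num
  have h2 : 1 < (s 9).η := by rw [T1]; norm_num
  refine ⟨dir (s 9) v, (view_tang hT h2 hv f.tab).2, ?_, ?_, ?_⟩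
  · refine (dir_step f T1.ge (Or.inl v1)).trans ?_
    rw [T1]; norm_num
  · have e1 := tau_dir hv h1 hT f.tab.symm
    have e2 := tau_dir hT h2 hv f.tab
    rw [(F.aim rfl).1, sv_sq h1.le] at e1
    rw [sv_sq h2.le] at e2
    rw [T1, v1] at e1 e2
    have := hT.pos
    rw [abs_le]; constructor <;> linarith
  · have e1 := cp_dir hv h1 hT f.tab.symm
    have e2 := cp_dir hT h2 hv f.tab
    have a1 := mul_nonpos_of_nonneg_of_nonpos (show 0 ≤ v.η + (s 9).η by linarith) (F.aim rfl).2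
    have a2 : cp v.ζ (s 9).ζ ≤ 0 := by
      by_contra hn
      linarith [mul_pos (not_le.1 hn) (sv_pos h1)]
    rw [cp_swap] at e2
    by_contra hn
    linarith [mul_pos (show 0 < (s 9).η + v.η by linarith) (neg_pos.2 (not_le.1 hn)),
      mul_nonneg (neg_nonneg.2 a2) (sv_pos h2).le]

lemma Fl.move (F : Fl v x y 2 s) (v1 : v.η = 10 ^ 30) (hu : Face v u x) (A : Aim v u) :
    v.τ * (10 ^ 30 - 3 / 10 ^ 30) ≤ ht v u * sv v.η ^ 2 ∧ ∀ j ≤ jN,
      ip v.ζ (dir v (s j)) ≤ 4 / 10 ^ 30 * v.τ ∧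
        (2 ≤ j → v.τ ≤ 2 * ‖v.ζ‖ → ip v.ζ (dir v (s j)) ≤ -(3 / 10 * v.τ)) := by
  obtain ⟨D, d1, d2, d3, d4⟩ := A
  obtain ⟨l1, l2, l3⟩ := F.lab2 rfl
  have hv := hu.oa
  have p := hv.pos
  have h1 : 1 < v.η := by rw [v1]; norm_num
  have l0 := l3 0 (Nat.zero_le _) (by norm_num) (by norm_num)
  have a0 := dir_step hu v1.ge (Or.inr (by rw [← F.zero, l0]))
  have a1 := dir_step (F.face 0) v1.ge (Or.inl l0)
  rw [← F.zero, v1] at a0
  rw [v1, zero_add] at a1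
  have b0 : ‖dir v (s 0) - D‖ ≤ 11 / 10 ^ 31 := by
    linarith [norm_sub_le_norm_sub_add_norm_sub (dir v (s 0)) (dir v u) D]
  have b1 : ‖dir v (s 1) - D‖ ≤ 12 / 10 ^ 31 := by
    linarith [norm_sub_le_norm_sub_add_norm_sub (dir v (s 1)) (dir v (s 0)) D]
  have d3' := abs_le.1 d3
  refine ⟨?_, fun j hj => ?_⟩
  · rw [ht_dir hv h1 hu.ob hu.tab, v1]
    linarith [(abs_le.1 (ip_lip hv d2)).1]
  rcases lt_or_ge j 2 with h2 | h2
  · refine ⟨?_, fun h => absurd h (by omega)⟩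
    obtain rfl | rfl : j = 0 ∨ j = 1 := by omega
    · clear hj; linarith [(abs_le.1 (ip_lip hv b0)).2]
    · clear hj; linarith [(abs_le.1 (ip_lip hv b1)).2]
  have a2 := dir_steps F.face v1.ge h2 (by omega) fun i c1 c2 => l3 i (by omega) (by omega) (by omega)
  have a3 := (F.face 1).dir h1
  rw [l1, l2, v1] at a3
  rw [v1] at a2
  have c1 := cos_ang (η := 10 ^ 30) (a := 10 ^ 30) (b := 10 ^ 30) (by norm_num) (by norm_num)
    (by norm_num)
  have c2 := sin_ang_pos (η := 10 ^ 30) (a := 10 ^ 30) (b := 10 ^ 30) (by norm_num) (by norm_num)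
    (by norm_num)
  generalize ang (10 ^ 30) (10 ^ 30) (10 ^ 30) = α at *
  have c3 : 1 / 2 ≤ cos α ∧ cos α ≤ 51 / 100 := by rw [c1]; norm_num
  have c4 : 4 / 5 ≤ sin α := le_of_sq_le_sq (by nlinarith [Real.sin_sq_add_cos_sq α]) c2.le
  have b2 : ‖dir v (s j) - D * ex α‖ ≤ 2 / 10 ^ 30 := by
    have : ‖dir v (s 2) - D * ex α‖ = ‖dir v (s 1) - D‖ := by
      rw [show dir v (s 2) = dir v (s 1) * ex α from a3, ← sub_mul, norm_mul, norm_ex, mul_one]
    clear hj h2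
    linarith [norm_sub_le_norm_sub_add_norm_sub (dir v (s j)) (dir v (s 2)) (D * ex α)]
  have b3 := (abs_le.1 (ip_lip hv b2)).2
  have e : ip v.ζ (D * ex α) = ip v.ζ D * cos α - cp v.ζ D * sin α := by
    simp only [ip, cp, Complex.mul_re, Complex.mul_im, ex_re, ex_im]; ring
  have b4 : ip v.ζ D * cos α ≤ 2 / 10 ^ 30 * v.τ := by nlinarith
  have b5 := mul_le_mul_of_nonneg_left c4 d4
  clear hj h2
  refine ⟨by linarith, fun _ h => ?_⟩
  have b6 := ip_sq_add v.ζ D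
  rw [d1] at b6
  have b7 : ip v.ζ D ^ 2 ≤ (2 / 10 ^ 30 * v.τ) ^ 2 := sq_le_sq' d3'.1 d3'.2
  have b8 : 2 / 5 * v.τ ≤ cp v.ζ D := le_of_sq_le_sq (by nlinarith) d4
  linarith

lemma Fl.typ2 (F : Fl v x y 2 s) (v1 : v.η = 10 ^ 30) (hu : Face v u x) (A : Aim v u) {j : ℕ}
    (h1 : j ≤ jN) : (s j).τ ≤ (s j).η * ((1 + 1 / 10 ^ 57) * ht v u) := by
  obtain ⟨m1, m2⟩ := F.move v1 hu A
  have h2 : 1 < v.η := by rw [v1]; norm_num
  have e1 := tau_dir hu.oa h2 (F.ok j) (F.tang j)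
  have m3 := (m2 j h1).1
  have l := F.lo j
  have p := hu.oa.pos
  clear h1 m2
  refine le_of_mul_le_mul_right ?_ (pow_pos (sv_pos h2) 2)
  rw [e1, mul_assoc, mul_assoc]
  generalize ht v u * sv v.η ^ 2 = z at *
  rw [v1]
  have a1 := mul_le_mul_of_nonneg_left m3 (show 0 ≤ 10 ^ 30 + (s j).η by linarith)
  have a2 := mul_le_mul_of_nonneg_left m1 (show 0 ≤ (s j).η by linarith)
  have a3 := mul_le_mul_of_nonneg_left l p.le
  linarith

lemma Fl.gain (F : Fl v x y 2 s) (v1 : v.η = 10 ^ 30) (hu : Face v u x) (A : Aim v u)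
    (h : v.τ ≤ 2 * ‖v.ζ‖) {j : ℕ} (h1 : j = 8 ∨ j = 9) :
    (s j).τ ≤ (s j).η * ((1 - 1 / 10 ^ 31) * ht v u) := by
  obtain ⟨m1, m2⟩ := F.move v1 hu A
  have h2 : 1 < v.η := by rw [v1]; norm_num
  have e1 := tau_dir hu.oa h2 (F.ok j) (F.tang j)
  have j1 := jN_ge
  have m3 := (m2 j (by omega)).2 (by omega) h
  have l := (F.lab2 rfl).2.2 j (by omega) (by omega) (by omega)
  have p := hu.oa.pos
  clear h1 m2 j1
  refine le_of_mul_le_mul_right ?_ (pow_pos (sv_pos h2) 2)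
  rw [e1, mul_assoc, mul_assoc]
  generalize ht v u * sv v.η ^ 2 = z at *
  rw [v1, l]
  linarith

end Pool.Agent.P.MP_3555ad_an.BD
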