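import Pool.Agent.P.MP_3555ad_an.BD.Shade

set_option autoImplicit false

namespace Pool.Agent.P.MP_3555ad_an.BD

open Real Finset

variable {v a b : Cir}

lemma tau_dir (hv : Ok v) (h1 : 1 < v.η) (ha : Ok a) (ta : Tang v a) :
    a.τ * sv v.η ^ 2 = v.τ * (1 + v.η * a.η) + (v.η + a.η) * ip v.ζ (dir v a) := by
  have hs := sv_pos h1
  have e := bb_view hv h1 orig a
  rw [bb_orig, view_orig, (view_tang hv h1 ha ta).1, ← neg_smul] at e
  simp only [bb, std, ip_smul] at e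
  rw [← e]; field_simp; ring

lemma cp_dir (hv : Ok v) (h1 : 1 < v.η) (ha : Ok a) (ta : Tang v a) :
    cp v.ζ a.ζ * sv v.η = (v.η + a.η) * cp v.ζ (dir v a) := by
  have hs := sv_pos h1
  have e := dd_view hv h1 orig v a
  rw [dd_orig, view_orig, view_self hv h1, (view_tang hv h1 ha ta).1, ← neg_smul] at e
  have z1 : ∀ z, cp z 0 = 0 := fun z => by simp [cp]
  have z2 : ∀ z, cp 0 z = 0 := fun z => by simp [cp]
  simp only [dd, std, cp_smul, z1, z2] at e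
  rw [← e, cp_swap v.ζ (dir v a)]; field_simp; ring

/-- The hyperbolic cosine of the distance from the origin to the tangency point. -/
noncomputable def ht (a b : Cir) : ℝ := (a.τ + b.τ) / (a.η + b.η)

lemma ht_comm (a b : Cir) : ht a b = ht b a := by unfold ht; rw [add_comm, add_comm a.η]

lemma ht_le (ha : Ok a) (hb : Ok b) {x : ℝ} (h1 : a.τ ≤ a.η * x) (h2 : b.τ ≤ b.η * x) :
    ht a b ≤ x := by
  rw [ht, div_le_iff₀ (by linarith [ha.one, hb.one])]; linarith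

lemma one_le_ht (ha : Ok a) (hb : Ok b) (t : Tang a b) : 1 ≤ ht a b := by
  rw [ht, le_div_iff₀ (by linarith [ha.one, hb.one]), one_mul]
  apply le_of_sq_le_sq _ (by linarith [ha.pos, hb.pos])
  have h1 := ha.nrm
  have h2 := hb.nrm
  unfold Tang at t
  simp only [bb, ip] at h1 h2 t
  nlinarith [sq_nonneg (a.ζ.re + b.ζ.re), sq_nonneg (a.ζ.im + b.ζ.im)]

lemma ht_dir (hv : Ok v) (h1 : 1 < v.η) (ha : Ok a) (ta : Tang v a) :
    ht v a * sv v.η ^ 2 = v.τ * v.η + ip v.ζ (dir v a) := by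
  have e := tau_dir hv h1 ha ta
  have h2 : 0 < v.η + a.η := by linarith [ha.one]
  rw [sv_sq h1.le] at *
  rw [ht, div_mul_eq_mul_div, div_eq_iff h2.ne']
  linarith

lemma ip_lip (hv : Ok v) {w z : ℂ} {d : ℝ} (h : ‖w - z‖ ≤ d) :
    |ip v.ζ w - ip v.ζ z| ≤ v.τ * d := by
  have : ip v.ζ w - ip v.ζ z = ip v.ζ (w - z) := by simp [ip]; ring
  rw [this]
  exact (abs_ip_le _ _).trans (mul_le_mul hv.norm_le h (norm_nonneg _) hv.pos.le)

lemma ip_unit (hv : Ok v) {w : ℂ} (h : ‖w‖ = 1) : |ip v.ζ w| ≤ v.τ :=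
  (abs_ip_le _ _).trans (by rw [h, mul_one]; exact hv.norm_le)

lemma near (hv : Ok v) (h2 : 2 ≤ v.η) (ha : Ok a) (ta : Tang v a) (hb : Ok b) (tb : Tang v b)
    {d c c' : ℝ} (hd : ‖dir v b - dir v a‖ ≤ d) (hc : 3 ≤ c * b.η) (hc' : 2 * d ≤ c' * v.η) :
    b.τ ≤ b.η * ((1 + c + c') * ht v a) := by
  have h1 : 1 < v.η := by linarith
  have e1 := tau_dir hv h1 hb tb
  have e2 := ht_dir hv h1 ha ta
  have i1 := (abs_le.1 (ip_lip hv hd)).2
  have i2 := (abs_le.1 (ip_unit hv (view_tang hv h1 hb tb).2)).2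
  have i3 := (abs_le.1 (ip_unit hv (view_tang hv h1 ha ta).2)).1
  have d0 : 0 ≤ d := (norm_nonneg _).trans hd
  have p := hv.pos
  have q := hb.one
  refine le_of_mul_le_mul_right ?_ (pow_pos (sv_pos h1) 2)
  rw [e1, mul_assoc, mul_assoc, e2]
  generalize ip v.ζ (dir v a) = x at *
  generalize ip v.ζ (dir v b) = y at *
  have a1 : v.τ * v.η / 2 ≤ v.τ * v.η + x := by nlinarith
  have a2 : v.τ * (1 + v.η) ≤ 3 * (v.τ * v.η + x) := by nlinarith
  have c0 : 0 ≤ c' := by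
    by_contra hn
    nlinarith
  have a3 : v.τ * d ≤ c' * (v.τ * v.η + x) := by
    nlinarith [mul_le_mul_of_nonneg_left a1 c0]
  have a0 : 0 ≤ v.τ * v.η + x := le_trans (by positivity) a1
  have a4 := mul_le_mul_of_nonneg_right hc a0
  have a5 := mul_le_mul_of_nonneg_left (i1.trans a3) (show 0 ≤ b.η by linarith)
  have a6 := mul_le_mul_of_nonneg_left i2 (show 0 ≤ v.η by linarith)
  nlinarith

section
variable {η x y q : ℝ}

lemma ang_le' (h : 1 ≤ η) (hx : 1 ≤ x) (hy : 1 ≤ y) (q0 : 0 ≤ q)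
    (hq : η ^ 2 - 1 ≤ q ^ 2 * ((η + x) * (η + y))) : ang η x y ≤ 315 / 100 * q := by
  have h1 : sin (ang η x y / 2) ≤ q := by
    rw [sin_half_ang h hx hy]
    exact Real.sqrt_le_iff.2 ⟨q0, by rwa [div_le_iff₀ (by positivity)]⟩
  have h2 := ang_nonneg η x y
  have h3 := ang_lt_pi h hx hy
  have h4 := Real.mul_le_sin (x := ang η x y / 2) (by linarith) (by linarith)
  have h5 : 200 / 315 ≤ 2 / π := by
    rw [div_le_div_iff₀ (by norm_num) Real.pi_pos]; linarith [Real.pi_lt_d2]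
  nlinarith

lemma le_ang' (h : 1 ≤ η) (hx : 1 ≤ x) (hy : 1 ≤ y)
    (hq : q ^ 2 * ((η + x) * (η + y)) ≤ η ^ 2 - 1) : 2 * q ≤ ang η x y := by
  have h1 : q ≤ sin (ang η x y / 2) := by
    rw [sin_half_ang h hx hy]
    exact Real.le_sqrt_of_sq_le (by rwa [le_div_iff₀ (by positivity)])
  have h2 := Real.sin_le (x := ang η x y / 2) (by linarith [ang_nonneg η x y])
  linarith

lemma ang_same (h : 1 ≤ η) (hx : 1 ≤ x) :
    2 * (sv η / (η + x)) ≤ ang η x x ∧ ang η x x ≤ 315 / 100 * (sv η / (η + x)) := by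
  have e : (sv η / (η + x)) ^ 2 * ((η + x) * (η + x)) = η ^ 2 - 1 := by
    rw [← sv_sq h]; field_simp
  exact ⟨le_ang' h hx hx e.le, ang_le' h hx hx (by unfold sv; positivity) e.ge⟩

lemma ang_tiny (h : 10 ^ 30 ≤ η) (hx : 1 ≤ x) : ang η x (10 ^ 220) ≤ η * (4 / 10 ^ 125) := by
  have := ang_le' (η := η) (y := 10 ^ 220) (q := η / 10 ^ 125) (by linarith) hx (by norm_num)
    (by positivity) (by
      have h1 : (10 : ℝ) ^ 30 * 10 ^ 220 ≤ (η + x) * (η + 10 ^ 220) :=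
        mul_le_mul (by linarith) (by linarith) (by norm_num) (by linarith)
      nlinarith [mul_le_mul_of_nonneg_left h1 (sq_nonneg η)])
  linarith

lemma ang_gap (h : 10 ^ 30 ≤ η) (h' : η ≤ 10 ^ 221) :
    1 / 10 ^ 222 ≤ ang η (10 ^ 220) (10 ^ 220) - ang η (10 ^ 221) (10 ^ 221) := by
  have h1 := (ang_same (η := η) (x := 10 ^ 220) (by linarith) (by norm_num)).1
  have h2 := (ang_same (η := η) (x := 10 ^ 221) (by linarith) (by norm_num)).2
  have h3 : 1 ≤ sv η := Real.le_sqrt_of_sq_le (by nlinarith)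
  have h4 : 1 / 10 ^ 222 ≤ 2 * (1 / (η + 10 ^ 220)) - 315 / 100 * (1 / (η + 10 ^ 221)) := by
    rw [mul_one_div, mul_one_div, div_sub_div _ _ (by positivity) (by positivity),
      div_le_div_iff₀ (by positivity) (by positivity)]
    nlinarith
  have h5 := mul_le_mul h3 h4 (by positivity) (by linarith)
  have e : ∀ z : ℝ, sv η / z = sv η * (1 / z) := fun z => by ring
  rw [e] at h1 h2
  linarith

lemma ang_gap' : 1 ≤ ang (10 ^ 220) (10 ^ 220 / 3) (10 ^ 220 / 3) -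
    ang (10 ^ 220) (10 ^ 221) (10 ^ 221) := by
  have h1 := (ang_same (η := 10 ^ 220) (x := 10 ^ 220 / 3) (by norm_num) (by norm_num)).1
  have h2 := (ang_same (η := 10 ^ 220) (x := 10 ^ 221) (by norm_num) (by norm_num)).2
  have h3 : 9 * 10 ^ 219 ≤ sv (10 ^ 220) := Real.le_sqrt_of_sq_le (by norm_num)
  have e1 : ∀ z : ℝ, z / (10 ^ 220 + 10 ^ 220 / 3) = 3 / 4 * (z / 10 ^ 220) := fun z => by ring
  have e2 : ∀ z : ℝ, z / (10 ^ 220 + 10 ^ 221) = 1 / 11 * (z / 10 ^ 220) := fun z => by ring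
  rw [e1] at h1
  rw [e2] at h2
  generalize ang (10 ^ 220) (10 ^ 220 / 3) (10 ^ 220 / 3) = x at *
  generalize ang (10 ^ 220) (10 ^ 221) (10 ^ 221) = y at *
  generalize sv (10 ^ 220) = z at *
  linarith

end

lemma dir_step (h : Face v a b) (h1 : 10 ^ 30 ≤ v.η) (h2 : a.η = 10 ^ 220 ∨ b.η = 10 ^ 220) :
    ‖dir v b - dir v a‖ ≤ v.η * (4 / 10 ^ 125) := by
  have h3 : 1 < v.η := by linarith
  have h4 := norm_ex_sub (ang v.η a.η b.η) 0
  rw [ex_zero, sub_zero, abs_of_nonneg (ang_nonneg _ _ _)] at h4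
  rw [h.dir h3, ← mul_sub_one, norm_mul, (view_tang h.oa h3 h.ob h.tab).2, one_mul]
  refine h4.trans ?_
  rcases h2 with h2 | h2 <;> rw [h2]
  · rw [ang_comm]; exact ang_tiny h1 h.oc.one
  · exact ang_tiny h1 h.ob.one

lemma dir_steps {s : ℕ → Cir} (h : ∀ j, Face v (s j) (s (j + 1))) (h1 : 10 ^ 30 ≤ v.η) {m n : ℕ}
    (hmn : m ≤ n) (hn : n ≤ m + jN) (h2 : ∀ j, m < j → j ≤ n → (s j).η = 10 ^ 220) :
    ‖dir v (s n) - dir v (s m)‖ ≤ v.η * (4 / 10 ^ 65) := by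
  have key : ∀ n, m ≤ n → (∀ j, m < j → j ≤ n → (s j).η = 10 ^ 220) →
      ‖dir v (s n) - dir v (s m)‖ ≤ (n - m) * (v.η * (4 / 10 ^ 125)) := by
    intro n hn
    induction n, hn using Nat.le_induction with
    | base => simp
    | succ n hn ih =>
      intro h3
      have a1 := ih fun j a b => h3 j a (by omega)
      have a2 := dir_step (h n) h1 (Or.inr (h3 _ (by omega) le_rfl))
      have a3 := norm_sub_le_norm_sub_add_norm_sub (dir v (s (n + 1))) (dir v (s n)) (dir v (s m))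
      push_cast
      linarith
  have c : (n : ℝ) ≤ m + jN := by exact_mod_cast hn
  rw [jN_cast] at c
  refine (key n hmn h2).trans ?_
  clear hmn hn
  nlinarith

lemma hit {G : ℝ → ℝ} {t1 t2 : ℝ} (h12 : t1 ≤ t2) (hc : ContinuousOn G (Set.Icc t1 t2))
    (hG : G t2 + 2 * π ≤ G t1) {ω D : ℂ} (hω : ‖ω‖ = 1) (hD : ‖D‖ = 1) :
    ∃ t ∈ Set.Icc t1 t2, ω * ex (G t) = D := by
  obtain ⟨x, -, -, hx⟩ := exists_ex hω hD
  have hp := Real.pi_pos
  have c1 : G t2 - x ≤ ⌈(G t2 - x) / (2 * π)⌉ * (2 * π) :=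
    (div_le_iff₀ (by positivity)).1 (Int.le_ceil _)
  have c2 : (⌈(G t2 - x) / (2 * π)⌉ - 1) * (2 * π) < G t2 - x := by
    rw [← lt_div_iff₀ (by positivity)]; linarith [Int.ceil_lt_add_one ((G t2 - x) / (2 * π))]
  obtain ⟨t, h1, h2⟩ := intermediate_value_Icc' h12 hc
    (show x + ⌈(G t2 - x) / (2 * π)⌉ * (2 * π) ∈ Set.Icc (G t2) (G t1) from
      ⟨by linarith, by linarith⟩)
  exact ⟨t, h1, by rw [h2, ex_add, ex_int, mul_one, hx]⟩

lemma hit_sum {η t1 t2 d : ℝ} (h : 1 ≤ η) (h12 : t1 ≤ t2) {Y : ℝ → ℕ → ℝ}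
    (Yc : ∀ j, Continuous fun t => Y t j) (Y1 : ∀ t, t1 ≤ t → ∀ j, 1 ≤ Y t j)
    (Y2 : ∀ j, Y t1 j ≤ Y t2 j) {lo hi n : ℕ} (h1 : lo ≤ hi) (h2 : hi ≤ n)
    (hd : ∀ j, lo ≤ j → j < hi → d ≤ ang η (Y t1 j) (Y t1 (j + 1)) - ang η (Y t2 j) (Y t2 (j + 1)))
    (big : 7 ≤ (hi - lo) * d) {ω D : ℂ} (hω : ‖ω‖ = 1) (hD : ‖D‖ = 1) :
    ∃ t ∈ Set.Icc t1 t2, ω * ex (∑ j ∈ range n, ang η (Y t j) (Y t (j + 1))) = D := by
  refine hit (G := fun t => ∑ j ∈ range n, ang η (Y t j) (Y t (j + 1))) h12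
    (continuousOn_finsetSum _ fun j _ => ?_) ?_ hω hD
  · unfold ang
    have := Yc j
    have := Yc (j + 1)
    refine continuousOn_const.mul (Real.continuous_arcsin.comp_continuousOn
      (Real.continuous_sqrt.comp_continuousOn (ContinuousOn.div (by fun_prop) (by fun_prop) ?_)))
    intro t ht
    have := Y1 t ht.1 j
    have := Y1 t ht.1 (j + 1)
    positivity
  · have e1 : ∑ j ∈ Ico lo hi, (ang η (Y t1 j) (Y t1 (j + 1)) - ang η (Y t2 j) (Y t2 (j + 1))) ≤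
        ∑ j ∈ range n, (ang η (Y t1 j) (Y t1 (j + 1)) - ang η (Y t2 j) (Y t2 (j + 1))) :=
      sum_le_sum_of_subset_of_nonneg (fun j hj => by
        rw [mem_Ico] at hj; rw [mem_range]; omega) fun j _ _ =>
          sub_nonneg.2 (ang_anti h (Y1 _ le_rfl _) (Y1 _ le_rfl _) (Y2 _) (Y2 _))
    have e2 := card_nsmul_le_sum (Ico lo hi) _ d fun j hj => hd j (mem_Ico.1 hj).1 (mem_Ico.1 hj).2
    rw [Nat.card_Ico, nsmul_eq_mul, Nat.cast_sub h1] at e2
    have e3 := e2.trans e1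
    rw [sum_sub_distrib] at e3
    clear h1 h2
    linarith [Real.pi_lt_d2]

end Pool.Agent.P.MP_3555ad_an.BD
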