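import Pool.Agent.P.MP_3555ad_an.BD.Flower

set_option autoImplicit false

namespace Pool.Agent.P.MP_3555ad_an.BD

open Real Finset

/-- The type of a vertex. -/
def typ : ℕ → ℤ → ℕ
  | 0, _ => 0
  | k + 1, l => if l % M k = 9 then (typ k (l / M k) + 1) % 3 else 0

lemma typ_per : Per typ := by
  intro k
  induction k with
  | zero => intro i; rfl
  | succ k ih => intro i; simp only [typ, add_nn_div, add_nn_mod, ih]

lemma typ_lt (k : ℕ) (i : ℤ) : typ k i < 3 := by
  cases k with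
  | zero => simp [typ]
  | succ k => simp only [typ]; split_ifs <;> omega

lemma typ_kid (k : ℕ) (i : ℤ) {j : ℕ} (hj : j < mN k) :
    typ (k + 1) (i * M k + j) = if j = 9 then (typ k i + 1) % 3 else 0 := by
  simp only [typ, blk_div k i hj, blk_mod k i hj]
  exact if_congr (by omega) rfl rfl

/-- First child in the image packing. -/
noncomputable def stI (k : ℕ) (f : ℤ → Cir) (i : ℤ) : Cir :=
  if k = 0 then petal (f 0) (10 ^ 220) 1 else third (f i) (f (i - 1)) (10 ^ 220)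

/-- A chosen chain of petals. -/
noncomputable def kdC (v x y : Cir) (ty : ℕ) : ℕ → Cir := Classical.choose (flower_ex v x y ty)

/-- Children in the image packing. -/
noncomputable def kdI (k : ℕ) (f : ℤ → Cir) (i : ℤ) : ℕ → Cir :=
  kdC (f i) (stI k f i) (stI k f (i + 1)) (typ k i)

/-- The image packing. -/
noncomputable def layI : ℕ → ℤ → Cir
  | 0 => fun _ => ⟨10 ^ 220, sv (10 ^ 220), 0⟩
  | k + 1 => fun l => kdI k (layI k) (l / M k) (l % M k).toNat

/-- Label invariants of a layer. -/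
def Inv (k : ℕ) (f : ℤ → Cir) : Prop :=
  ∀ i, Ok (f i) ∧ 10 ^ 30 ≤ (f i).η ∧ (f i).η ≤ 10 ^ 221 ∧ (typ k i = 1 → (f i).η = 10 ^ 220)

lemma stepI {k : ℕ} {f : ℤ → Cir} (per : ∀ i, f (i + nn k) = f i) (inv : Inv k f)
    (so : ∀ i, Ok (stI k f i)) (t1 : ∀ i, Tang (f i) (stI k f i))
    (t2 : ∀ i, Tang (f i) (stI k f (i + 1))) {g : ℤ → Cir}
    (hg : g = fun l => kdI k f (l / M k) (l % M k).toNat) :
    (∀ i, g (i + nn (k + 1)) = g i) ∧ Inv (k + 1) g ∧
      (∀ l, Face (f (l / M k)) (g l) (g (l + 1))) ∧ (∀ i, g (i * M k) = stI k f i) ∧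
      ∀ i, ∃ s, Fl (f i) (g (i * M k)) (g ((i + 1) * M k)) (typ k i) s ∧
        ∀ j ≤ mN k, g (i * M k + j) = s j := by
  have s2 : ∀ i, (stI k f i).η = 10 ^ 220 := fun i => by unfold stI; split_ifs <;> rfl
  have sp : ∀ i, Fl (f i) (stI k f i) (stI k f (i + 1)) (typ k i) (kdI k f i) := fun i =>
    Classical.choose_spec (flower_ex (f i) (stI k f i) (stI k f (i + 1)) (typ k i)) (inv i).1
      (inv i).2.1 (inv i).2.2.1 (so i) (t1 i) (s2 i) (so _) (t2 i) (s2 _) (inv i).2.2.2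
  have hm := mN_ge k
  have blk : ∀ i (j : ℕ), j ≤ mN k → g (i * M k + j) = kdI k f i j := by
    intro i j hj
    rcases hj.eq_or_lt with rfl | hj
    · have : i * M k + (mN k : ℕ) = (i + 1) * M k + (0 : ℕ) := by rw [blk_top]; simp
      have h0 : 0 < mN k := by omega
      rw [this, hg]
      simp only [blk_div k _ h0, blk_mod k _ h0]
      exact (sp (i + 1)).zero.trans (sp i).last.symm
    · simp only [hg, blk_div k _ hj, blk_mod k _ hj, Int.toNat_natCast]
  have st : ∀ i, g (i * M k) = stI k f i := fun i => by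
    have := blk i 0 (Nat.zero_le _)
    rw [Nat.cast_zero, add_zero] at this
    rw [this]; exact (sp i).zero
  refine ⟨fun i => ?_, fun i => ?_, fun l => ?_, st, fun i => ⟨_, ?_, blk i⟩⟩
  · simp only [hg, add_nn_div, add_nn_mod]
    have e1 : ∀ i, stI k f (i + nn k) = stI k f i := by
      intro i
      unfold stI
      rw [per, add_sub_right_comm, per]
    unfold kdI
    rw [per, e1, add_right_comm, e1, typ_per k]
  · obtain ⟨j, hj, e, -⟩ := blk_ex k i
    rw [e, blk _ _ hj.le, typ_kid _ _ hj]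
    refine ⟨(sp _).ok j, (sp _).lo j, (sp _).hi j, fun h => ?_⟩
    have h3 := typ_lt k (i / M k)
    have h4 : j = 9 ∧ typ k (i / M k) = 0 := by split_ifs at h <;> omega
    have F := sp (i / M k)
    exact F.lab0 h4.2 j (by linarith [jN_ge, h4.1])
  · obtain ⟨j, hj, e, -⟩ := blk_ex k l
    have e' : l + 1 = l / M k * M k + (j + 1 : ℕ) := by push_cast; linarith
    rw [e', blk _ _ hj]
    nth_rewrite 2 [e]
    rw [blk _ _ hj.le]
    exact (sp _).face j
  · rw [st, st]; exact sp i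

/-- The image packing in Lorentz coordinates. -/
structure Img (X : ℕ → ℤ → Cir) : Prop where
  per : Per X
  inv : ∀ k, Inv k (X k)
  fan : ∀ k l, Face (X k (l / M k)) (X (k + 1) l) (X (k + 1) (l + 1))
  down : ∀ k i, Face (X (k + 1) i) (X (k + 1) (i - 1)) (X (k + 2) (i * M (k + 1)))
  fl : ∀ k i, ∃ s, Fl (X k i) (X (k + 1) (i * M k)) (X (k + 1) ((i + 1) * M k)) (typ k i) s ∧
    ∀ j ≤ mN k, X (k + 1) (i * M k + j) = s j

theorem exists_img : ∃ X, Img X := by
  have r1 : (1 : ℝ) < 10 ^ 220 := by norm_num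
  have ok0 : Ok ⟨10 ^ 220, sv (10 ^ 220), 0⟩ := ⟨r1.le, sv_pos r1, by
    simp only [bb, ip, Complex.zero_re, Complex.zero_im]
    rw [← sv_sq r1.le]; ring⟩
  have i0 : Inv 0 (layI 0) := fun _ => ⟨ok0, by norm_num [layI], by norm_num [layI], fun _ => rfl⟩
  have key : ∀ k, (∀ i, layI (k + 1) (i + nn (k + 1)) = layI (k + 1) i) ∧
      Inv (k + 1) (layI (k + 1)) ∧
      (∀ l, Face (layI k (l / M k)) (layI (k + 1) l) (layI (k + 1) (l + 1))) ∧
      (1 ≤ k → ∀ i, Face (layI k i) (layI k (i - 1)) (layI (k + 1) (i * M k))) ∧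
      ∀ i, ∃ s, Fl (layI k i) (layI (k + 1) (i * M k)) (layI (k + 1) ((i + 1) * M k)) (typ k i) s ∧
        ∀ j ≤ mN k, layI (k + 1) (i * M k + j) = s j := by
    intro k
    induction k with
    | zero =>
      have t : ∀ i j, Tang (layI 0 i) (stI 0 (layI 0) j) := fun _ _ => petal_tang ok0 r1 _ _
      have := stepI (k := 0) (f := layI 0) (fun _ => rfl) i0
        (fun _ => petal_ok ok0 r1 r1.le (by simp)) (fun i => t i i) (fun i => t i _)
        (g := layI 1) rfl
      exact ⟨this.1, this.2.1, this.2.2.1, fun h => absurd h (by norm_num), this.2.2.2.2⟩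
    | succ k ih =>
      obtain ⟨per, inv, fan, -, -⟩ := ih
      have sf : ∀ i, Face (layI (k + 1) i) (layI (k + 1) (i - 1))
          (stI (k + 1) (layI (k + 1)) i) := fun i => by
        simp only [stI, Nat.succ_ne_zero, if_false]
        refine face_third (inv i).1 (by linarith [(inv i).2.1]) (inv _).1 ?_ r1.le
        have := (fan (i - 1)).tbc.symm
        rwa [sub_add_cancel] at this
      have := stepI (k := k + 1) (f := layI (k + 1)) per inv (fun i => (sf i).oc)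
        (fun i => (sf i).tca.symm)
        (fun i => by have := (sf (i + 1)).tbc; rwa [add_sub_cancel_right] at this)
        (g := layI (k + 2)) rfl
      exact ⟨this.1, this.2.1, this.2.2.1, fun _ i => by rw [this.2.2.2.1]; exact sf i,
        this.2.2.2.2⟩
  refine ⟨layI, fun k => ?_, fun k => ?_, fun k => (key k).2.2.1,
    fun k => (key (k + 1)).2.2.2.1 (by omega), fun k => (key k).2.2.2.2⟩
  · cases k with
    | zero => exact fun _ => rfl
    | succ k => exact (key k).1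
  · cases k with
    | zero => exact i0
    | succ k => exact (key k).2.1

variable {X : ℕ → ℤ → Cir}

lemma Img.ok (I : Img X) (k : ℕ) (i : ℤ) : Ok (X k i) := (I.inv k i).1

lemma Img.pack (I : Img X) : Pack (euc X) :=
  ⟨fun k i => by simp only [euc, I.per k i], fun k i => (I.ok k i).rad_pos,
    fun k l => face_eface (I.fan k l), fun k i => face_eface (I.down k i)⟩

lemma Img.aim (I : Img X) (k : ℕ) (i : ℤ) (h : typ (k + 1) i = 2) :
    (X (k + 1) i).η = 10 ^ 30 ∧ Aim (X (k + 1) i) (X (k + 1) (i - 1)) := by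
  obtain ⟨j, hj, e, -⟩ := blk_ex k i
  rw [e, typ_kid _ _ hj] at h
  have h3 := typ_lt k (i / M k)
  have h4 : j = 9 ∧ typ k (i / M k) = 1 := by split_ifs at h <;> omega
  obtain ⟨s, F, hs⟩ := I.fl k (i / M k)
  rw [h4.2] at F
  obtain ⟨rfl, h4⟩ := h4
  have e' : i - 1 = i / M k * M k + (8 : ℕ) := by push_cast at e ⊢; linarith
  rw [e', hs 8 (by omega), e, hs 9 hj.le]
  exact ⟨(F.lab1 rfl).1, F.next ((I.inv k _).2.2.2 h4)⟩

/-- The weight of a type. -/
noncomputable def wt (ty : ℕ) : ℝ :=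
  if ty = 0 then 1 else if ty = 1 then 1 - 1 / 10 ^ 47 else 1 - 1 / 10 ^ 39

lemma wt_bd (ty : ℕ) : 1 / 2 ≤ wt ty ∧ wt ty ≤ 1 := by
  unfold wt; split_ifs <;> norm_num

lemma Img.pot (I : Img X) :
    Pot (fun k i => 2 * (wt (typ (k + 1) i) * ht (X (k + 1) i) (X (k + 1) (i - 1))))
      (fun k i => 1 / 10 ^ 222 ≤ rad (X (k + 1) i)) (1 - 1 / 10 ^ 55) := by
  have h1 : ∀ k i, 1 ≤ ht (X (k + 1) i) (X (k + 1) (i - 1)) := fun k i =>
    one_le_ht (I.ok _ _) (I.ok _ _) (I.down k i).tab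
  refine ⟨fun k i => by nlinarith [h1 k i, (wt_bd (typ (k + 1) i)).1], fun k i hG => ?_⟩
  obtain ⟨s, F, hs⟩ := I.fl (k + 1) i
  obtain ⟨s', F', hs'⟩ := I.fl (k + 1) (i - 1)
  rw [sub_add_cancel] at F'
  have D := I.down k i
  obtain ⟨hv, v1, v2, v3⟩ := I.inv (k + 1) i
  obtain ⟨hu, u1, -, -⟩ := I.inv (k + 1) (i - 1)
  have h2 := h1 k i
  have j1 := jN_ge
  have j2 := jN_le
  have m1 := mN_eq (k + 1)
  have m2 := M_eq (k + 1)
  have t3 := typ_lt (k + 1) i
  have far : (X (k + 1) i).τ ≤ 2 * ‖(X (k + 1) i).ζ‖ := by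
    by_contra hn
    apply hG
    have a1 := hv.nrm'
    have a2 : (X (k + 1) i).τ ≤ 2 * (X (k + 1) i).η :=
      le_of_sq_le_sq (by nlinarith [norm_nonneg (X (k + 1) i).ζ, hv.pos]) (by linarith)
    rw [rad, one_div]
    exact inv_anti₀ (by linarith [hv.pos]) (by linarith)
  have kid : ∀ (c : ℝ) (n : ℕ), n ≤ hN → (∀ j ≤ n, (s j).τ ≤ (s j).η * c) →
      (∀ j, 2 * hN ≤ j + n → j ≤ 2 * hN → (s' j).τ ≤ (s' j).η * c) →
      ∀ l, i * M (k + 1) - n < l → l ≤ i * M (k + 1) + n →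
        ht (X (k + 2) l) (X (k + 2) (l - 1)) ≤ c := by
    intro c n hn b1 b2
    have key : ∀ l, i * M (k + 1) - n ≤ l → l ≤ i * M (k + 1) + n →
        (X (k + 2) l).τ ≤ (X (k + 2) l).η * c := by
      intro l l1 l2
      rcases le_or_gt (i * M (k + 1)) l with l3 | l3
      · obtain ⟨j, rfl⟩ : ∃ j : ℕ, l = i * M (k + 1) + j := ⟨(l - i * M (k + 1)).toNat, by omega⟩
        rw [hs j (by omega)]; exact b1 j (by omega)
      · have e : (i - 1) * M (k + 1) = i * M (k + 1) - M (k + 1) := by ring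
        obtain ⟨j, rfl⟩ : ∃ j : ℕ, l = (i - 1) * M (k + 1) + j :=
          ⟨(l - (i - 1) * M (k + 1)).toNat, by omega⟩
        rw [hs' j (by omega)]; exact b2 j (by omega) (by omega)
    intro l l1 l2
    exact ht_le (I.ok _ _) (I.ok _ _) (key l l1.le l2) (key _ (by omega) (by omega))
  have all := kid _ hN le_rfl (fun j _ => F.all v1 hu D.tab j)
    (fun j _ _ => by rw [ht_comm]; exact F'.all u1 hv D.tab.symm j)
  have mid := kid _ jN (by omega) (fun j hj => by
      obtain h | h | h : typ (k + 1) i = 0 ∨ typ (k + 1) i = 1 ∨ typ (k + 1) i = 2 := by omega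
      all_goals rw [h] at F
      · exact F.typ0 v1 D hj
      · exact F.typ1 (v3 h) hu D.tab hj
      · exact F.typ2 (I.aim k i h).1 D (I.aim k i h).2 hj)
    (fun j a b => by rw [ht_comm]; exact F'.side u1 D a b)
  have wl : ∀ l, wt (typ (k + 2) l) * ht (X (k + 2) l) (X (k + 2) (l - 1)) ≤
      ht (X (k + 2) l) (X (k + 2) (l - 1)) := fun l =>
    mul_le_of_le_one_left (by linarith [h1 (k + 1) l]) (wt_bd _).2
  have sp := mid (i * M (k + 1) + 9) (by omega) (by omega)
  have ty := typ_kid (k + 1) i (j := 9) (by omega)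
  rw [if_pos rfl, Nat.cast_ofNat] at ty
  suffices fin : ∃ y : ℝ, 0 ≤ y ∧
      wt (typ (k + 2) (i * M (k + 1) + 9)) * ht (X (k + 2) (i * M (k + 1) + 9))
        (X (k + 2) (i * M (k + 1) + 9 - 1)) ≤
          (1 + 1 / 10 ^ 57 - y) * ht (X (k + 1) i) (X (k + 1) (i - 1)) ∧
      1 + 2 / 10 ^ 57 - y / 10 ^ 7 ≤ (1 - 1 / 10 ^ 55) * wt (typ (k + 1) i) by
    obtain ⟨y, y0, b1, b2⟩ := fin
    clear j1 j2 m1 m2 t3
    exact ⟨2 * ht (X (k + 1) i) (X (k + 1) (i - 1)), y, by linarith, y0,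
      fun l a b => by linarith [wl l, all l a b], fun l a b => by linarith [wl l, mid l a b],
      by linarith, by linarith [mul_le_mul_of_nonneg_right b2 (zero_le_one.trans h2)]⟩
  obtain h | h | h : typ (k + 1) i = 0 ∨ typ (k + 1) i = 1 ∨ typ (k + 1) i = 2 := by omega
  · refine ⟨1 / 10 ^ 47, by norm_num, ?_, by rw [h]; norm_num [wt]⟩
    rw [ty, h, show wt ((0 + 1) % 3) = 1 - 1 / 10 ^ 47 by norm_num [wt]]
    linarith [h1 (k + 1) (i * M (k + 1) + 9)]
  · refine ⟨1 / 10 ^ 39, by norm_num, ?_, by rw [h]; norm_num [wt]⟩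
    rw [ty, h, show wt ((1 + 1) % 3) = 1 - 1 / 10 ^ 39 by norm_num [wt]]
    linarith [h1 (k + 1) (i * M (k + 1) + 9)]
  · refine ⟨1 / 10 ^ 31, by norm_num, (wl _).trans ?_, by rw [h]; norm_num [wt]⟩
    rw [h] at F
    have g := fun j hj => F.gain (I.aim k i h).1 D (I.aim k i h).2 far (j := j) hj
    have e8 := hs 8 (by omega)
    have e9 := hs 9 (by omega)
    rw [Nat.cast_ofNat] at e8 e9
    rw [show i * M (k + 1) + 9 - 1 = i * M (k + 1) + 8 by ring, e8, e9]
    refine (ht_le (F.ok _) (F.ok _) (g 9 (Or.inr rfl)) (g 8 (Or.inl rfl))).trans ?_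
    linarith

end Pool.Agent.P.MP_3555ad_an.BD
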