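import Pool.Agent.P.MP_3555ad_an.Lorentz

set_option autoImplicit false

namespace Pool.Agent.P.MP_3555ad_an.BD

open Real Finset Filter Topology

/-- Perron method for angle sums. -/
lemma perron {V : Type} (S : (V → ℝ) → V → ℝ → ℝ) (A c : ℝ) (hA : 1 ≤ A)
    (anti : ∀ f g : V → ℝ, (∀ v, 1 ≤ f v) → (∀ v, f v ≤ g v) → ∀ v t, 1 ≤ t → S g v t ≤ S f v t)
    (cont : ∀ f : V → ℝ, (∀ v, 1 ≤ f v) → ∀ v, ContinuousOn (S f v) (Set.Ici 1))
    (top : ∀ v, c ≤ S (fun _ => A) v A) (bot : ∀ f v, S f v 1 < c) :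
    ∃ η : V → ℝ, ∀ v, 1 < η v ∧ η v ≤ A ∧ S η v (η v) = c := by
  classical
  let Sup : Set (V → ℝ) := {f | (∀ v, 1 ≤ f v) ∧ ∀ v, c ≤ S f v (f v)}
  have hA' : (fun _ => A) ∈ Sup := ⟨fun _ => hA, top⟩
  let η : V → ℝ := fun v => sInf ((fun f : V → ℝ => f v) '' Sup)
  have bdd : ∀ v, BddBelow ((fun f : V → ℝ => f v) '' Sup) := fun v =>
    ⟨1, by rintro _ ⟨f, hf, rfl⟩; exact hf.1 v⟩
  have ne : ∀ v, ((fun f : V → ℝ => f v) '' Sup).Nonempty := fun v => ⟨_, _, hA', rfl⟩
  have le : ∀ f ∈ Sup, ∀ v, η v ≤ f v := fun f hf v => csInf_le (bdd v) ⟨f, hf, rfl⟩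
  have one : ∀ v, 1 ≤ η v := fun v => le_csInf (ne v) (by rintro _ ⟨f, hf, rfl⟩; exact hf.1 v)
  have sup : ∀ v, c ≤ S η v (η v) := by
    intro v
    have cl : IsClosed (Set.Ici (1 : ℝ) ∩ S η v ⁻¹' Set.Ici c) :=
      (cont η one v).preimage_isClosed_of_isClosed isClosed_Ici isClosed_Ici
    have : η v ∈ Set.Ici (1 : ℝ) ∩ S η v ⁻¹' Set.Ici c := by
      refine cl.closure_subset_iff.2 ?_ (csInf_mem_closure (ne v) (bdd v))
      rintro _ ⟨f, hf, rfl⟩
      exact ⟨hf.1 v, (hf.2 v).trans (anti η f one (le f hf) v _ (hf.1 v))⟩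
    exact this.2
  have gt : ∀ v, 1 < η v := fun v => lt_of_le_of_ne (one v) (fun h => by
    have := sup v
    rw [← h] at this
    exact absurd (bot η v) (not_lt.2 this))
  refine ⟨η, fun v => ⟨gt v, le _ hA' v, le_antisymm ?_ (sup v)⟩⟩
  by_contra hlt
  push Not at hlt
  have ca : ContinuousAt (S η v) (η v) := (cont η one v).continuousAt (Ici_mem_nhds (gt v))
  have ev : ∀ᶠ t in 𝓝[<] (η v), c < S η v t ∧ 1 < t ∧ t < η v :=
    ((ca.eventually (lt_mem_nhds hlt)).filter_mono nhdsWithin_le_nhds).and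
      (((lt_mem_nhds (gt v)).filter_mono nhdsWithin_le_nhds).and self_mem_nhdsWithin)
  obtain ⟨t, h1, h2, h3⟩ := ev.exists
  have u1 : ∀ w, 1 ≤ Function.update η v t w := by
    intro w; by_cases hw : w = v
    · subst hw; simpa using h2.le
    · simpa [hw] using one w
  have u2 : ∀ w, Function.update η v t w ≤ η w := by
    intro w; by_cases hw : w = v
    · subst hw; simpa using h3.le
    · simp [hw]
  have : Function.update η v t ∈ Sup := by
    refine ⟨u1, fun w => le_trans ?_ (anti _ η u1 u2 w _ (u1 w))⟩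
    by_cases hw : w = v
    · subst hw; simpa using h1.le
    · simpa [hw] using sup w
  have := le _ this v
  simp at this
  linarith

section angb
variable {η a b : ℝ}

lemma ang_anti {a' b' : ℝ} (h : 1 ≤ η) (ha : 1 ≤ a) (hb : 1 ≤ b) (ha' : a ≤ a') (hb' : b ≤ b') :
    ang η a' b' ≤ ang η a b := by
  unfold ang
  refine mul_le_mul_of_nonneg_left (Real.arcsin_le_arcsin (Real.sqrt_le_sqrt ?_)) zero_le_two
  exact div_le_div_of_nonneg_left (by nlinarith) (by positivity)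
    (mul_le_mul (by linarith) (by linarith) (by linarith) (by linarith))

lemma ang_cont (ha : 1 ≤ a) (hb : 1 ≤ b) : ContinuousOn (fun t => ang t a b) (Set.Ici 1) := by
  unfold ang
  refine continuousOn_const.mul (Real.continuous_arcsin.comp_continuousOn
    (Real.continuous_sqrt.comp_continuousOn (ContinuousOn.div (by fun_prop) (by fun_prop) ?_)))
  intro t ht
  have : (1 : ℝ) ≤ t := ht
  positivity

lemma ang_one (a b : ℝ) : ang 1 a b = 0 := by simp [ang]

lemma sin_half_ang_le (h : 1 ≤ η) (ha : 1 ≤ a) (hb : 1 ≤ b) : sin (ang η a b / 2) ≤ sv η / 2 := by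
  rw [sin_half_ang h ha hb]
  refine Real.sqrt_le_iff.2 ⟨by unfold sv; positivity, ?_⟩
  rw [div_pow, sv_sq h]
  exact div_le_div_of_nonneg_left (by nlinarith) (by norm_num) (by nlinarith)

lemma le_sin_half_ang {A : ℝ} (h : 1 ≤ η) (ha : 1 ≤ a) (hb : 1 ≤ b) (h' : η ≤ A) (ha' : a ≤ A)
    (hb' : b ≤ A) : sv η / (2 * A) ≤ sin (ang η a b / 2) := by
  rw [sin_half_ang h ha hb]
  refine Real.le_sqrt_of_sq_le ?_
  rw [div_pow, sv_sq h]
  exact div_le_div_of_nonneg_left (by nlinarith) (by positivity) (by nlinarith)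

lemma ang_le (h : 1 ≤ η) (ha : 1 ≤ a) (hb : 1 ≤ b) : ang η a b ≤ 2 * sv η := by
  have h1 := sin_half_ang_le h ha hb
  have h2 := ang_nonneg η a b
  have h3 := ang_lt_pi h ha hb
  have h4 := Real.mul_le_sin (x := ang η a b / 2) (by linarith) (by linarith)
  have h5 : 1 / 2 ≤ 2 / π := by
    rw [div_le_div_iff₀ (by norm_num) Real.pi_pos]; linarith [Real.pi_le_four]
  nlinarith

lemma le_ang {A : ℝ} (h : 1 ≤ η) (ha : 1 ≤ a) (hb : 1 ≤ b) (h' : η ≤ A) (ha' : a ≤ A)
    (hb' : b ≤ A) : sv η / A ≤ ang η a b := by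
  have h1 := le_sin_half_ang h ha hb h' ha' hb'
  have h2 := Real.sin_le (x := ang η a b / 2) (by linarith [ang_nonneg η a b])
  have : sv η / A = 2 * (sv η / (2 * A)) := by field_simp
  linarith

end angb

/-- Half the number of new petals per vertex. -/
@[irreducible] def hN : ℕ := 10 ^ 230
lemma hN_eq : hN = 10 ^ 230 := by unfold hN; rfl
/-- Number of new petals per vertex of layer `k`. -/
def mN (_ : ℕ) : ℕ := 2 * hN
/-- The same as an integer. -/
def M (k : ℕ) : ℤ := mN k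
/-- Size of layer `k`. -/
def nn : ℕ → ℤ
  | 0 => 1
  | k + 1 => nn k * M k

lemma hN_ge : 1000 ≤ hN := by rw [hN_eq]; norm_num
lemma mN_ge (k : ℕ) : 2000 ≤ mN k := by unfold mN; linarith [hN_ge]
lemma M_ge (k : ℕ) : 2000 ≤ M k := by unfold M; exact_mod_cast mN_ge k
lemma M_pos (k : ℕ) : 0 < M k := by linarith [M_ge k]
lemma nn_pos (k : ℕ) : 0 < nn k := by
  induction k with
  | zero => simp [nn]
  | succ k ih => exact mul_pos ih (M_pos k)
lemma nn_succ (k : ℕ) : nn (k + 1) = nn k * M k := rfl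

lemma add_nn_div (k : ℕ) (i : ℤ) : (i + nn (k + 1)) / M k = i / M k + nn k := by
  rw [nn_succ, Int.add_mul_ediv_right _ _ (M_pos k).ne']
lemma add_nn_mod (k : ℕ) (i : ℤ) : (i + nn (k + 1)) % M k = i % M k := by
  rw [nn_succ, Int.add_mul_emod_self_right]
lemma add_nn_mul (k : ℕ) (i : ℤ) : (i + nn k) * M k = i * M k + nn (k + 1) := by
  rw [nn_succ]; ring

/-- Periodic layer data. -/
def Per {X : Type} (f : ℕ → ℤ → X) : Prop := ∀ k i, f k (i + nn k) = f k i

lemma per_int {X : Type} {g : ℤ → X} {n : ℤ} (h : ∀ i, g (i + n) = g i) (i q : ℤ) :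
    g (i + q * n) = g i := by
  have : Function.Periodic g n := h
  simpa using this.int_mul q i

lemma per_emod {X : Type} {g : ℤ → X} {n : ℤ} (h : ∀ i, g (i + n) = g i) (i : ℤ) :
    g (i % n) = g i := by
  rw [← per_int h (i % n) (i / n)]
  congr 1
  rw [mul_comm]; exact Int.emod_add_mul_ediv i n

/-- The vertices. -/
def V : Type := {p : ℕ × ℤ // 0 ≤ p.2 ∧ p.2 < nn p.1}

/-- The vertex of layer `k` with index `i` modulo the layer size. -/
def mk (k : ℕ) (i : ℤ) : V :=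
  ⟨(k, i % nn k), Int.emod_nonneg _ (nn_pos k).ne', Int.emod_lt_of_pos _ (nn_pos k)⟩

lemma per_mk : Per mk := by
  intro k i
  simp [mk]

lemma mk_self (v : V) : mk v.1.1 v.1.2 = v := by
  apply Subtype.ext
  simp only [mk]
  rw [Int.emod_eq_of_lt v.2.1 v.2.2]

lemma mk_zero (i j : ℤ) : mk 0 i = mk 0 j := by simp [mk, nn]

/-- The function on vertices given by periodic data. -/
def lift {X : Type} (f : ℕ → ℤ → X) (v : V) : X := f v.1.1 v.1.2

lemma lift_mk {X : Type} {f : ℕ → ℤ → X} (h : Per f) (k : ℕ) (i : ℤ) :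
    lift f (mk k i) = f k i := per_emod (h k) i

/-- Partial sums of the fan angles at vertex `(k, i)`. -/
noncomputable def fanS (f : ℕ → ℤ → ℝ) (k : ℕ) (i : ℤ) (t : ℝ) (n : ℕ) : ℝ :=
  ∑ j ∈ range n, ang t (f (k + 1) (i * M k + j)) (f (k + 1) (i * M k + j + 1))

/-- The inner angle at vertex `(k + 1, i)`. -/
noncomputable def inS (f : ℕ → ℤ → ℝ) (k : ℕ) (i : ℤ) (t : ℝ) : ℝ :=
  ang t (f (k + 1) (i + 1)) (f k (i / M k)) +
    (if 1 ≤ k ∧ i % M k = 0 then ang t (f k (i / M k)) (f k ((i - 1) / M k)) else 0) +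
    ang t (f k ((i - 1) / M k)) (f (k + 1) (i - 1))

/-- The angle sum at vertex `(k, i)`. -/
noncomputable def angS (f : ℕ → ℤ → ℝ) : ℕ → ℤ → ℝ → ℝ
  | 0, i, t => fanS f 0 i t (mN 0)
  | k + 1, i, t => inS f k i t + ang t (f (k + 1) (i - 1)) (f (k + 2) (i * M (k + 1))) +
      fanS f (k + 1) i t (mN (k + 1)) + ang t (f (k + 2) ((i + 1) * M (k + 1))) (f (k + 1) (i + 1))

lemma fanS_per {f : ℕ → ℤ → ℝ} (h : Per f) (k : ℕ) (i : ℤ) (t : ℝ) (n : ℕ) :
    fanS f k (i + nn k) t n = fanS f k i t n := by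
  unfold fanS
  refine sum_congr rfl fun j _ => ?_
  rw [add_nn_mul, show i * M k + nn (k + 1) + j = i * M k + j + nn (k + 1) by ring, h,
    show i * M k + j + nn (k + 1) + 1 = i * M k + j + 1 + nn (k + 1) by ring, h]

lemma angS_per {f : ℕ → ℤ → ℝ} (h : Per f) : Per (angS f) := by
  intro k i
  funext t
  cases k with
  | zero => exact fanS_per h 0 i t _
  | succ k =>
    simp only [angS, inS, fanS_per h]
    rw [add_nn_div, add_nn_mod, show i + nn (k + 1) - 1 = i - 1 + nn (k + 1) by ring,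
      show i + nn (k + 1) + 1 = i + 1 + nn (k + 1) by ring, add_nn_div, add_nn_mul, add_nn_mul]
    simp only [h k, h (k + 1), h (k + 1 + 1)]

lemma fanS_ge {f : ℕ → ℤ → ℝ} {A : ℝ} (h1 : ∀ k i, 1 ≤ f k i) (hA : ∀ k i, f k i ≤ A) (k : ℕ)
    (i : ℤ) {t : ℝ} (ht : 1 ≤ t) (ht' : t ≤ A) {n n' : ℕ} (hn : n ≤ n') :
    fanS f k i t n + (n' - n) * (sv t / A) ≤ fanS f k i t n' := by
  induction n', hn using Nat.le_induction with
  | base => simp
  | succ m hm ih =>
    have := le_ang ht (h1 (k + 1) (i * M k + m)) (h1 (k + 1) (i * M k + m + 1)) ht' (hA _ _) (hA _ _)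
    unfold fanS at ih ⊢
    rw [sum_range_succ]; push_cast; linarith

lemma fanS_le {f : ℕ → ℤ → ℝ} (h1 : ∀ k i, 1 ≤ f k i) (k : ℕ)
    (i : ℤ) {t : ℝ} (ht : 1 ≤ t) {n n' : ℕ} (hn : n ≤ n') :
    fanS f k i t n' ≤ fanS f k i t n + (n' - n) * (2 * sv t) := by
  induction n', hn using Nat.le_induction with
  | base => simp
  | succ m hm ih =>
    have := ang_le ht (h1 (k + 1) (i * M k + m)) (h1 (k + 1) (i * M k + m + 1))
    unfold fanS at ih ⊢
    rw [sum_range_succ]; push_cast; linarith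

lemma fanS_zero (f : ℕ → ℤ → ℝ) (k : ℕ) (i : ℤ) (t : ℝ) : fanS f k i t 0 = 0 := by simp [fanS]

lemma inS_nonneg (f : ℕ → ℤ → ℝ) (k : ℕ) (i : ℤ) (t : ℝ) : 0 ≤ inS f k i t := by
  unfold inS
  refine add_nonneg (add_nonneg (ang_nonneg _ _ _) ?_) (ang_nonneg _ _ _)
  split_ifs
  · exact ang_nonneg _ _ _
  · exact le_rfl

lemma inS_le {f : ℕ → ℤ → ℝ} (h1 : ∀ k i, 1 ≤ f k i) (k : ℕ) (i : ℤ) {t : ℝ} (ht : 1 ≤ t) :
    inS f k i t ≤ 6 * sv t := by
  unfold inS
  have a1 := ang_le ht (h1 (k + 1) (i + 1)) (h1 k (i / M k))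
  have a2 := ang_le ht (h1 k (i / M k)) (h1 k ((i - 1) / M k))
  have a3 := ang_le ht (h1 k ((i - 1) / M k)) (h1 (k + 1) (i - 1))
  have : 0 ≤ sv t := Real.sqrt_nonneg _
  split_ifs <;> linarith

lemma fanS_le_angS (f : ℕ → ℤ → ℝ) (k : ℕ) (i : ℤ) (t : ℝ) :
    fanS f k i t (mN k) ≤ angS f k i t := by
  cases k with
  | zero => exact le_rfl
  | succ k =>
    simp only [angS]
    linarith [inS_nonneg f k i t, ang_nonneg t (f (k + 1) (i - 1)) (f (k + 2) (i * M (k + 1))),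
      ang_nonneg t (f (k + 2) ((i + 1) * M (k + 1))) (f (k + 1) (i + 1))]

lemma angS_le {f : ℕ → ℤ → ℝ} (h1 : ∀ k i, 1 ≤ f k i) (k : ℕ) (i : ℤ) {t : ℝ} (ht : 1 ≤ t) :
    angS f k i t ≤ (mN k + 5) * (2 * sv t) := by
  have h2 := fanS_le h1 k i ht (Nat.zero_le (mN k))
  rw [fanS_zero] at h2
  have : 0 ≤ sv t := Real.sqrt_nonneg _
  cases k with
  | zero => simp only [angS]; push_cast at h2 ⊢; linarith
  | succ k =>
    simp only [angS]
    have a1 := inS_le h1 k i ht
    have a2 := ang_le ht (h1 (k + 1) (i - 1)) (h1 (k + 2) (i * M (k + 1)))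
    have a3 := ang_le ht (h1 (k + 2) ((i + 1) * M (k + 1))) (h1 (k + 1) (i + 1))
    push_cast at h2 ⊢; linarith

/-- Labels with all angle sums `2π`. -/
structure Lab (η : ℕ → ℤ → ℝ) : Prop where
  per : Per η
  gt : ∀ k i, 1 < η k i
  le : ∀ k i, η k i ≤ 101 / 100
  sum : ∀ k i, angS η k i (η k i) = 2 * π

theorem exists_lab : ∃ η, Lab η := by
  obtain ⟨η, hη⟩ := perron (V := V) (fun f v t => angS (fun k i => f (mk k i)) v.1.1 v.1.2 t)
    (101 / 100) (2 * π) (by norm_num) (by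
      intro f g h1 h2 v t ht
      have key : ∀ a b, ang t (g a) (g b) ≤ ang t (f a) (f b) := fun a b =>
        ang_anti ht (h1 a) (h1 b) (h2 a) (h2 b)
      obtain ⟨⟨k, i⟩, hv⟩ := v
      cases k with
      | zero =>
        simp only [angS, fanS]
        exact sum_le_sum fun j _ => key _ _
      | succ k =>
        simp only [angS, inS, fanS]
        refine add_le_add (add_le_add (add_le_add (add_le_add (add_le_add (key _ _) ?_) (key _ _))
          (key _ _)) (sum_le_sum fun j _ => key _ _)) (key _ _)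
        split_ifs
        · exact key _ _
        · exact le_rfl) (by
      intro f h1 v
      have key : ∀ a b, ContinuousOn (fun t => ang t (f a) (f b)) (Set.Ici 1) := fun a b =>
        ang_cont (h1 a) (h1 b)
      obtain ⟨⟨k, i⟩, hv⟩ := v
      cases k with
      | zero =>
        simp only [angS, fanS]
        exact continuousOn_finsetSum _ fun j _ => key _ _
      | succ k =>
        simp only [angS, inS, fanS]
        refine ((((((key _ _).add ?_).add (key _ _)).add (key _ _)).add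
          (continuousOn_finsetSum _ fun j _ => key _ _))).add (key _ _)
        split_ifs
        · exact key _ _
        · exact continuousOn_const) (by
      intro v
      refine le_trans ?_ (fanS_le_angS _ _ _ _)
      have h := fanS_ge (f := fun _ _ => (101 / 100 : ℝ)) (A := 101 / 100) (fun _ _ => by norm_num)
        (fun _ _ => le_rfl) v.1.1 v.1.2 (t := 101 / 100) (by norm_num) le_rfl
        (Nat.zero_le (mN v.1.1))
      rw [fanS_zero] at h
      have h2 : (1 / 10 : ℝ) ≤ sv (101 / 100) := Real.le_sqrt_of_sq_le (by norm_num)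
      have h3 : (2000 : ℝ) ≤ mN v.1.1 := by exact_mod_cast mN_ge _
      have h4 := Real.pi_le_four
      push_cast at h
      nlinarith) (by
      intro f v
      obtain ⟨⟨k, i⟩, hv⟩ := v
      cases k <;> simp [angS, inS, fanS, ang_one, Real.pi_pos])
  have hp : Per fun k i => η (mk k i) := fun k i => by simp only [per_mk k i]
  refine ⟨fun k i => η (mk k i), hp, fun k i => (hη _).1, fun k i => (hη _).2.1, fun k i => ?_⟩
  have h1 := (hη (mk k i)).2.2
  have h2 := lift_mk (angS_per hp) k i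
  simp only [lift] at h2
  rw [h2] at h1
  exact h1

namespace Lab
variable {η : ℕ → ℤ → ℝ}

lemma one (h : Lab η) (k : ℕ) (i : ℤ) : 1 ≤ η k i := (h.gt k i).le

lemma sv_le (h : Lab η) (k : ℕ) (i : ℤ) : mN k * sv (η k i) ≤ 7 := by
  have h1 := fanS_ge h.one h.le k i (h.one k i) (h.le k i) (Nat.zero_le (mN k))
  have h2 := fanS_le_angS η k i (η k i)
  rw [fanS_zero] at h1
  rw [h.sum] at h2
  have := Real.pi_lt_d2
  push_cast at h1
  linarith

lemma sv_small (h : Lab η) (k : ℕ) (i : ℤ) : sv (η k i) ≤ 1 / 250 := by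
  have h1 := h.sv_le k i
  have h3 : (2000 : ℝ) ≤ mN k := by exact_mod_cast mN_ge _
  have := sv_pos (h.gt k i)
  nlinarith

lemma le_sv (h : Lab η) (k : ℕ) (i : ℤ) : 2 ≤ mN k * sv (η k i) := by
  have h1 := angS_le h.one k i (h.one k i)
  rw [h.sum] at h1
  have h3 : (2000 : ℝ) ≤ mN k := by exact_mod_cast mN_ge _
  have := Real.pi_gt_three
  have := h.sv_small k i
  nlinarith

end Lab

end Pool.Agent.P.MP_3555ad_an.BD
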