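import Pool.Agent.P.MP_3555ad_an.BD.Tiling

set_option autoImplicit false

namespace Pool.Agent.P.MP_3555ad_an.BD

open Real Finset Filter Topology MeasureTheory

/-- Number of controlled children on each side. -/
@[irreducible] def jN : ℕ := 10 ^ 60
lemma jN_eq : jN = 10 ^ 60 := by unfold jN; rfl
lemma jN_cast : (jN : ℝ) = 10 ^ 60 := by rw [jN_eq]; norm_num
lemma mN_eq (k : ℕ) : mN k = 2 * hN := rfl
lemma mN_cast (k : ℕ) : (mN k : ℝ) = 2 * 10 ^ 230 := by rw [mN_eq, hN_eq]; norm_num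
lemma M_eq (k : ℕ) : M k = 2 * hN := by rw [M, mN_eq]; norm_num
lemma jN_ge : 20 ≤ jN := by rw [jN_eq]; norm_num
lemma jN_le : 2 * jN ≤ hN := by rw [jN_eq, hN_eq]; norm_num

/-- Hyperbolic centre. -/
noncomputable def hc (c : Cir) : ℂ := (c.τ + sv c.η)⁻¹ • c.ζ

lemma norm_hc {c : Cir} (h : Ok c) : ‖hc c‖ = ‖c.ζ‖ / (c.τ + sv c.η) := by
  have : 0 < c.τ + sv c.η := add_pos_of_pos_of_nonneg h.pos (Real.sqrt_nonneg _)
  rw [hc, norm_smul, Real.norm_eq_abs, abs_of_pos (inv_pos.2 this)]; ring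

lemma hc_lower {c : Cir} (h : Ok c) (h1 : 1 < c.η) : sv c.η / (2 * c.τ) ≤ 1 - ‖hc c‖ := by
  have hs := sv_pos h1
  have h2 := h.pos
  have h3 : sv c.η ≤ c.τ := le_of_sq_le_sq (by
    rw [sv_sq h1.le]; nlinarith [h.nrm', sq_nonneg ‖c.ζ‖]) h2.le
  rw [norm_hc h, one_sub_div (by positivity)]
  exact div_le_div₀ (by linarith [h.norm_le]) (by linarith [h.norm_le]) (by positivity) (by linarith)

lemma hc_upper {c : Cir} (h : Ok c) (h1 : 1 < c.η) (h4 : sv c.η ≤ 1 / 2) (h5 : 1 ≤ c.τ) :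
    1 - ‖hc c‖ ≤ c.τ⁻¹ := by
  have hs := sv_pos h1
  have h2 := h.nrm'
  rw [← sv_sq h1.le] at h2
  have h3 : c.τ - ‖c.ζ‖ ≤ 1 / 2 := by nlinarith [h.norm_le, norm_nonneg c.ζ]
  rw [norm_hc h, one_sub_div (by positivity), inv_eq_one_div]
  exact div_le_div₀ (by norm_num) (by linarith) (by positivity) (by linarith)

lemma hc_spec {c : Cir} (h : Ok c) (h1 : 1 < c.η) (w : ℂ) (hw : ‖w - cen c‖ = rad c) :
    ‖w - hc c‖ = (c.η - sv c.η) * ‖1 - (starRingEnd ℂ) (hc c) * w‖ := by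
  have hs := sv_pos h1
  have h2 := sv_sq h1.le
  have h3 := h.nrm
  have h4 := h.pos
  have h5 : sv c.η < c.η := lt_of_pow_lt_pow_left₀ 2 (by linarith) (by linarith)
  rw [← sq_eq_sq₀ (norm_nonneg _) h.rad_pos.le, ← ip_self] at hw
  rw [← sq_eq_sq₀ (norm_nonneg _) (mul_nonneg (by linarith) (norm_nonneg _)), mul_pow, ← ip_self,
    ← ip_self]
  obtain ⟨b, hb⟩ : ∃ b, b = (c.τ + c.η)⁻¹ := ⟨_, rfl⟩
  obtain ⟨k, hk⟩ : ∃ k, k = (c.τ + sv c.η)⁻¹ := ⟨_, rfl⟩
  have b1 : b * (c.τ + c.η) = 1 := by rw [hb]; field_simp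
  have k1 : k * (c.τ + sv c.η) = 1 := by rw [hk]; field_simp
  simp only [bb, ip, cen, rad, hc, ← hb, ← hk, Complex.sub_re, Complex.sub_im, Complex.smul_re,
    Complex.smul_im, smul_eq_mul, Complex.mul_re, Complex.mul_im, Complex.conj_re, Complex.conj_im,
    Complex.one_re, Complex.one_im] at h3 hw ⊢
  have e : (c.τ + c.η) * (w.re ^ 2 + w.im ^ 2) - 2 * (w.re * c.ζ.re + w.im * c.ζ.im) +
      (c.τ - c.η) = 0 := by grind
  grind

lemma norm_ex_sub (x y : ℝ) : ‖ex x - ex y‖ ≤ |x - y| := by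
  have : ex x - ex y = ex y * (ex (x - y) - 1) := by
    rw [mul_sub, ← ex_add]; simp
  rw [this, norm_mul, norm_ex, one_mul, ex, mul_comm]
  exact Real.norm_exp_I_mul_ofReal_sub_one_le

lemma arg_far {u w : Cir} (hu : Ok u) (hw : Ok w) (t : Tang u w) (u1 : sv u.η ≤ 1 / 250)
    (w1 : sv w.η ≤ 1 / 250) (r1 : u.τ ≤ 2100 * w.τ) (r2 : w.τ ≤ 2100 * u.τ) {x y : ℝ}
    (hx : u.ζ = ‖u.ζ‖ • ex x) (hy : w.ζ = ‖w.ζ‖ • ex y) : 3 ≤ (y - x) ^ 2 * (u.τ * w.τ) := by
  unfold Tang bb at t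
  rw [ip_pol hx hy] at t
  have key : ∀ {c : Cir}, Ok c → sv c.η ≤ 1 / 250 → (c.τ - ‖c.ζ‖) * c.τ ≤ 1 / 62500 := by
    intro c hc c1
    have h1 := hc.nrm'
    rw [← sv_sq hc.one] at h1
    have h2 : sv c.η ^ 2 ≤ (1 / 250) ^ 2 := pow_le_pow_left₀ (Real.sqrt_nonneg _) c1 2
    nlinarith [mul_nonneg (sub_nonneg.2 hc.norm_le) (norm_nonneg c.ζ)]
  have k1 := key hu u1
  have k2 := key hw w1
  have a1 : (w.τ - ‖w.ζ‖) * u.τ ≤ (w.τ - ‖w.ζ‖) * (2100 * w.τ) :=
    mul_le_mul_of_nonneg_left r1 (sub_nonneg.2 hw.norm_le)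
  have a2 : (u.τ - ‖u.ζ‖) * ‖w.ζ‖ ≤ (u.τ - ‖u.ζ‖) * (2100 * u.τ) :=
    mul_le_mul_of_nonneg_left (hw.norm_le.trans r2) (sub_nonneg.2 hu.norm_le)
  have a3 : 1 ≤ u.η * w.η := one_le_mul_of_one_le_of_one_le hu.one hw.one
  have a4 : ‖u.ζ‖ * ‖w.ζ‖ * (1 - cos (y - x)) ≤ u.τ * w.τ * ((y - x) ^ 2 / 2) :=
    mul_le_mul (mul_le_mul hu.norm_le hw.norm_le (norm_nonneg _) hu.pos.le)
      (by linarith [Real.one_sub_sq_div_two_le_cos (x := y - x)])
      (by linarith [Real.cos_le_one (y - x)]) (mul_pos hu.pos hw.pos).le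
  nlinarith

variable {η : ℕ → ℤ → ℝ} {U : ℕ → ℤ → Cir} {a : ℕ → ℤ → ℝ}

lemma Lay.lowJ (h : Lab η) (L : Lay η U) (k : ℕ) (i : ℤ) {j : ℕ} (hj : jN ≤ j)
    (hj' : j + jN ≤ mN (k + 1)) :
    9 * 10 ^ 119 * (U (k + 1) i).τ ≤ (U (k + 2) (i * M (k + 1) + j)).τ := by
  obtain ⟨ω, φ, P⟩ := L.pic h k i
  have hs := sv_pos (h.gt (k + 1) i)
  have hss := h.sv_le (k + 1) i
  have h1 := P.lo j (by omega)
  have h2 := P.lo' j (by omega)
  have c2 : (jN : ℝ) ≤ j := by exact_mod_cast hj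
  have c3 : (j : ℝ) + jN ≤ mN (k + 1) := by exact_mod_cast hj'
  have e := P.tau h L (j := j) (by omega)
  clear hj hj'
  rw [jN_cast] at c2 c3
  rw [mN_cast] at hss
  have h3 := sin_half_ge (x := 10 ^ 60 * (sv (η (k + 1) i) / (101 / 100)) / 2)
    (φ := φ + fanS η (k + 1) i (η (k + 1) i) j) (by positivity) (by linarith) (by nlinarith)
    (by nlinarith)
  have h4 := tau_lower (norm_nonneg _) (L.ok h (k + 1) i).norm_le (h.one _ _) (h.one _ _) e
    (y := 49 / 100 * 10 ^ 60 * sv (η (k + 1) i)) (by positivity) (by linarith) (by linarith)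
  have hp := (L.ok h (k + 1) i).pos
  refine le_of_mul_le_mul_right (le_trans ?_ h4) (pow_pos hs 2)
  have : 0 ≤ (U (k + 1) i).τ * sv (η (k + 1) i) ^ 2 := by positivity
  nlinarith

lemma Lay.ratio (h : Lab η) (L : Lay η U) (k : ℕ) (i : ℤ) :
    (U (k + 1) (i - 1)).τ ≤ 2100 * (U (k + 1) i).τ ∧
      (U (k + 1) i).τ ≤ 2100 * (U (k + 1) (i - 1)).τ := by
  have h1 := L.low1 h k i (Nat.zero_le _)
  have h2 := L.up h k i (j := 0) (Or.inl (by norm_num))
  have h3 := L.low1 h k (i - 1) le_rfl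
  have h4 := L.up h k (i - 1) (Or.inr rfl)
  rw [blk_top, sub_add_cancel] at h3 h4
  rw [Nat.cast_zero, add_zero] at h1 h2
  have := (L.ok h (k + 1) i).pos
  have := (L.ok h (k + 1) (i - 1)).pos
  constructor <;> linarith

lemma Args.mono (A : Args U a) (k : ℕ) : StrictMono (a k) := strictMono_int_of_lt_succ (A.lt k)

lemma Args.parJ (h : Lab η) (L : Lay η U) (A : Args U a) (k : ℕ) (i : ℤ) {j : ℕ} (hj : jN ≤ j)
    (hj' : j + jN ≤ mN (k + 1)) :
    |a (k + 1) (i * M (k + 1) + j) - a k i| ≤ 4 / 10 ^ 60 * (U (k + 1) i).τ⁻¹ := by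
  have h2 := A.par k i j (by omega)
  have h3 := L.lowJ h k i hj hj'
  have p := (L.ok h (k + 1) i).pos
  clear hj hj'
  apply abs_le_of_sq_le_sq _ (by positivity)
  rw [← div_eq_mul_inv, div_pow, le_div_iff₀ (by positivity)]
  nlinarith [mul_le_mul_of_nonneg_left (mul_le_mul_of_nonneg_left h3 p.le)
    (sq_nonneg (a (k + 1) (i * M (k + 1) + j) - a k i))]

/-- The argument of the middle descendant after `n` generations. -/
noncomputable def BB (a : ℕ → ℤ → ℝ) : ℕ → ℕ → ℤ → ℝ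
  | 0, k, i => a k i
  | n + 1, k, i => BB a n (k + 1) (i * M (k + 1) + hN)

lemma Args.BB_mono (A : Args U a) (n k : ℕ) : Monotone (BB a n k) := by
  induction n generalizing k with
  | zero => exact (A.mono k).monotone
  | succ n ih =>
    intro i j hij
    exact ih (k + 1) (by nlinarith [M_pos (k + 1)])

lemma inv_le_of {s t c : ℝ} (hs : 0 < s) (hc : 0 < c) (h : c * s ≤ t) : t⁻¹ ≤ c⁻¹ * s⁻¹ := by
  rw [← mul_inv]; exact inv_anti₀ (by positivity) h

lemma Args.BB_close (h : Lab η) (L : Lay η U) (A : Args U a) (n k : ℕ) (i : ℤ) :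
    |BB a n k i - a k i| ≤ 5 / 10 ^ 60 * (U (k + 1) i).τ⁻¹ := by
  have p := (L.ok h (k + 1) i).pos
  induction n generalizing k i with
  | zero => simp only [BB, sub_self, abs_zero]; positivity
  | succ n ih =>
    have c1 : jN ≤ hN := by linarith [jN_le]
    have c2 : hN + jN ≤ mN (k + 1) := by rw [mN_eq]; linarith
    have h1 := ih (k + 1) (i * M (k + 1) + hN) (L.ok h _ _).pos
    have h2 := A.parJ h L k i c1 c2
    have h3 := inv_le_of p (by norm_num) (L.lowJ h k i c1 c2)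
    have h6 := abs_sub_le (BB a (n + 1) k i) (a (k + 1) (i * M (k + 1) + hN)) (a k i)
    have h7 := inv_pos.2 p
    simp only [BB] at h6 ⊢
    clear c1 c2
    linarith

lemma Args.BB_kid (h : Lab η) (L : Lay η U) (A : Args U a) (n k : ℕ) (i : ℤ) {j : ℕ} (hj : jN ≤ j)
    (hj' : j + jN ≤ mN (k + 1)) :
    |BB a n (k + 1) (i * M (k + 1) + j) - BB a (n + 1) k i| ≤ 1 / 10 ^ 59 * (U (k + 1) i).τ⁻¹ := by
  have p := (L.ok h (k + 1) i).pos
  have h1 := abs_le.1 (A.BB_close h L n (k + 1) (i * M (k + 1) + j))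
  have h2 := abs_le.1 (A.parJ h L k i hj hj')
  have h3 := inv_le_of p (by norm_num) (L.lowJ h k i hj hj')
  have h4 := abs_le.1 (A.BB_close h L (n + 1) k i)
  have h7 := inv_pos.2 p
  clear hj hj'
  rw [abs_le]; constructor <;> linarith [h1.1, h1.2]

lemma Args.len (h : Lab η) (L : Lay η U) (A : Args U a) (n k : ℕ) (i : ℤ) {j : ℤ}
    (hj : j = i ∨ j = i - 1) : 1 / 30 * (U (k + 1) j).τ⁻¹ ≤ BB a n k i - BB a n k (i - 1) ∧
      BB a n k i - BB a n k (i - 1) ≤ 160 * (U (k + 1) j).τ⁻¹ := by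
  have h1 := abs_le.1 (A.BB_close h L n k i)
  have h2 := abs_le.1 (A.BB_close h L n k (i - 1))
  have h3 := A.step k (i - 1)
  have h4 := A.lt k (i - 1)
  obtain ⟨r1, r2⟩ := L.ratio h k i
  have t := (L.fan k (i - 1)).tbc
  rw [sub_add_cancel] at h3 h4 t
  have h5 := arg_far (L.ok h _ _) (L.ok h _ _) t (by rw [L.lab]; exact h.sv_small _ _)
    (by rw [L.lab]; exact h.sv_small _ _) r1 r2 (A.pol k (i - 1)) (A.pol k i)
  have p := (L.ok h (k + 1) i).pos
  have q := (L.ok h (k + 1) (i - 1)).pos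
  have key : ∀ {s t d : ℝ}, 0 < s → 0 < t → s ≤ 2100 * t → t ≤ 2100 * s → 0 < d →
      3 ≤ d ^ 2 * (s * t) → d ^ 2 * (s * t) ≤ 11 →
      1 / 29 * s⁻¹ ≤ d ∧ d ≤ 153 * s⁻¹ ∧ t⁻¹ ≤ 2100 * s⁻¹ ∧ 0 < s⁻¹ := by
    intro s t d s0 t0 b1 b2 d0 b3 b4
    refine ⟨?_, ?_, ?_, inv_pos.2 s0⟩
    · apply le_of_sq_le_sq _ d0.le
      rw [← div_eq_mul_inv, div_pow, div_le_iff₀ (by positivity)]
      nlinarith [mul_le_mul_of_nonneg_left (mul_le_mul_of_nonneg_left b2 s0.le) (sq_nonneg d)]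
    · apply le_of_sq_le_sq _ (by positivity)
      rw [← div_eq_mul_inv, div_pow, le_div_iff₀ (by positivity)]
      nlinarith [mul_le_mul_of_nonneg_left (mul_le_mul_of_nonneg_left b1 s0.le) (sq_nonneg d)]
    · rw [← div_eq_mul_inv, inv_eq_one_div, div_le_div_iff₀ t0 s0]; linarith
  rcases hj with rfl | rfl
  · obtain ⟨b1, b2, b3, b4⟩ := key p q r2 r1 (sub_pos.2 h4) (by rwa [mul_comm (U _ j).τ])
      (by rwa [mul_comm (U _ j).τ])
    constructor <;> linarith [h1.1, h1.2, h2.1, h2.2]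
  · obtain ⟨b1, b2, b3, b4⟩ := key q p r1 r2 (sub_pos.2 h4) h5 h3
    constructor <;> linarith [h1.1, h1.2, h2.1, h2.2]

/-- The boundary point `t` lies under the ring edge `(i - 1, i)` of layer `k + 1`. -/
def Near (U : ℕ → ℤ → Cir) (a : ℕ → ℤ → ℝ) (k : ℕ) (i : ℤ) (t : ℝ) : Prop :=
  |t - a k i| ≤ 161 * (U (k + 1) i).τ⁻¹ ∧ |t - a k (i - 1)| ≤ 161 * (U (k + 1) (i - 1)).τ⁻¹

lemma Args.near_of (h : Lab η) (L : Lay η U) (A : Args U a) {n k : ℕ} {i : ℤ} {t : ℝ}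
    (ht : t ∈ Set.Ioc (BB a n k (i - 1)) (BB a n k i)) : Near U a k i t := by
  have h1 := abs_le.1 (A.BB_close h L n k i)
  have h2 := abs_le.1 (A.BB_close h L n k (i - 1))
  have h3 := (A.len h L n k i (Or.inl rfl)).2
  have h4 := (A.len h L n k i (Or.inr rfl)).2
  have p := inv_pos.2 (L.ok h (k + 1) i).pos
  have q := inv_pos.2 (L.ok h (k + 1) (i - 1)).pos
  constructor <;> rw [abs_le] <;> constructor <;> linarith [h1.1, h1.2, h2.1, h2.2, ht.1, ht.2]

lemma piece {F : Set ℝ} {b : ℤ → ℝ} {c : ℝ} (hb : Monotone b) (hc : 0 ≤ c) {l l' : ℤ} (hl : l ≤ l')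
    (h : ∀ m, l < m → m ≤ l' →
      volume (F ∩ Set.Ioc (b (m - 1)) (b m)) ≤ ENNReal.ofReal (c * (b m - b (m - 1)))) :
    volume (F ∩ Set.Ioc (b l) (b l')) ≤ ENNReal.ofReal (c * (b l' - b l)) := by
  induction l', hl using Int.leInduction with
  | base => simp
  | succ m hm ih =>
    have h1 := hb hm
    have h2 := hb (show m ≤ m + 1 by omega)
    have h3 := h (m + 1) (by omega) le_rfl
    rw [add_sub_cancel_right] at h3
    rw [← Set.Ioc_union_Ioc_eq_Ioc h1 h2, Set.inter_union_distrib_left]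
    refine (measure_union_le _ _).trans ((add_le_add (ih fun m' a b => h m' a (by omega)) h3).trans
      (le_of_eq ?_))
    rw [← ENNReal.ofReal_add (mul_nonneg hc (by linarith)) (mul_nonneg hc (by linarith))]
    congr 1; ring

lemma glue {F : Set ℝ} {x y z s t : ℝ} (h1 : x ≤ y) (h2 : y ≤ z) (hs : 0 ≤ s) (ht : 0 ≤ t)
    (a1 : volume (F ∩ Set.Ioc x y) ≤ ENNReal.ofReal s)
    (a2 : volume (F ∩ Set.Ioc y z) ≤ ENNReal.ofReal t) :
    volume (F ∩ Set.Ioc x z) ≤ ENNReal.ofReal (s + t) := by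
  rw [← Set.Ioc_union_Ioc_eq_Ioc h1 h2, Set.inter_union_distrib_left, ENNReal.ofReal_add hs ht]
  exact (measure_union_le _ _).trans (add_le_add a1 a2)

/-- A potential that contracts in the mean below every edge that is not good. -/
structure Pot (W : ℕ → ℤ → ℝ) (G : ℕ → ℤ → Prop) (θ : ℝ) : Prop where
  one : ∀ k i, 1 ≤ W k i
  step : ∀ k i, ¬G k i → ∃ x y : ℝ, 0 ≤ x ∧ 0 ≤ y ∧
    (∀ l, i * M (k + 1) - hN < l → l ≤ i * M (k + 1) + hN → W (k + 1) l ≤ 2 * x) ∧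
    (∀ l, i * M (k + 1) - jN < l → l ≤ i * M (k + 1) + jN → W (k + 1) l ≤ (1 + 1 / 10 ^ 57) * x) ∧
    W (k + 1) (i * M (k + 1) + 9) ≤ (1 + 1 / 10 ^ 57 - y) * x ∧
    (1 + 2 / 10 ^ 57 - y / 10 ^ 7) * x ≤ θ * W k i

lemma Args.decay (h : Lab η) (L : Lay η U) (A : Args U a) {W : ℕ → ℤ → ℝ} {G : ℕ → ℤ → Prop}
    {θ : ℝ} (P : Pot W G θ) (θ0 : 0 ≤ θ) {F : Set ℝ} {k0 : ℕ}
    (hF : ∀ t ∈ F, ∀ k ≥ k0, ∀ i, Near U a k i t → ¬G k i) (n : ℕ) : ∀ k ≥ k0, ∀ i,
    volume (F ∩ Set.Ioc (BB a n k (i - 1)) (BB a n k i)) ≤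
      ENNReal.ofReal (θ ^ n * W k i * (BB a n k i - BB a n k (i - 1))) := by
  induction n with
  | zero =>
    intro k _ i
    refine (measure_mono Set.inter_subset_right).trans ?_
    rw [Real.volume_Ioc]
    refine ENNReal.ofReal_le_ofReal ?_
    have := A.BB_mono 0 k (show i - 1 ≤ i by omega)
    nlinarith [P.one k i]
  | succ n ih =>
    intro k hk i
    by_cases hG : G k i
    · rw [Set.eq_empty_of_forall_notMem (s := F ∩ _) fun t ht =>
        hF t ht.1 k hk i (A.near_of h L ht.2) hG]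
      simp
    obtain ⟨x, y, x0, y0, w1, w2, w3, w4⟩ := P.step k i hG
    have mono := A.BB_mono n (k + 1)
    have tn : 0 ≤ θ ^ n := pow_nonneg θ0 n
    have pc : ∀ {c : ℝ} {l l' : ℤ}, l ≤ l' → (∀ m, l < m → m ≤ l' → W (k + 1) m ≤ c) → 0 ≤ c →
        volume (F ∩ Set.Ioc (BB a n (k + 1) l) (BB a n (k + 1) l')) ≤
          ENNReal.ofReal (θ ^ n * c * (BB a n (k + 1) l' - BB a n (k + 1) l)) := by
      intro c l l' hl hw c0
      refine piece mono (mul_nonneg tn c0) hl fun m m1 m2 => (ih (k + 1) (by omega) m).trans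
        (ENNReal.ofReal_le_ofReal (mul_le_mul_of_nonneg_right
          (mul_le_mul_of_nonneg_left (hw m m1 m2) tn) (sub_nonneg.2 (mono (by omega)))))
    have j1 : (20 : ℤ) ≤ jN := by exact_mod_cast jN_ge
    have j2 : 2 * (jN : ℤ) ≤ hN := by exact_mod_cast jN_le
    have e0 : BB a (n + 1) k (i - 1) = BB a n (k + 1) (i * M (k + 1) - hN) := by
      simp only [BB]; congr 1; rw [M_eq]; ring
    have e1 : BB a (n + 1) k i = BB a n (k + 1) (i * M (k + 1) + hN) := rfl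
    have c3 : 0 ≤ (1 + 1 / 10 ^ 57 - y) * x := by linarith [P.one (k + 1) (i * M (k + 1) + 9)]
    have p1 := pc (l := i * M (k + 1) - hN) (l' := i * M (k + 1) - jN) (by omega)
      (fun m m1 m2 => w1 m m1 (by omega)) (by positivity)
    have p2 := pc (l := i * M (k + 1) - jN) (l' := i * M (k + 1) + 8) (by omega)
      (fun m m1 m2 => w2 m m1 (by omega)) (by positivity)
    have p3 := pc (l := i * M (k + 1) + 8) (l' := i * M (k + 1) + 9) (by omega)
      (fun m m1 m2 => by rw [show m = i * M (k + 1) + 9 by omega]; exact w3) c3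
    have p4 := pc (l := i * M (k + 1) + 9) (l' := i * M (k + 1) + jN) (by omega)
      (fun m m1 m2 => w2 m (by omega) m2) (by positivity)
    have p5 := pc (l := i * M (k + 1) + jN) (l' := i * M (k + 1) + hN) (by omega)
      (fun m m1 m2 => w1 m (by omega) m2) (by positivity)
    have m1 := mono (show i * M (k + 1) - hN ≤ i * M (k + 1) - jN by omega)
    have m2 := mono (show i * M (k + 1) - jN ≤ i * M (k + 1) + 8 by omega)
    have m3 := mono (show i * M (k + 1) + 8 ≤ i * M (k + 1) + 9 by omega)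
    have m4 := mono (show i * M (k + 1) + 9 ≤ i * M (k + 1) + jN by omega)
    have m5 := mono (show i * M (k + 1) + jN ≤ i * M (k + 1) + hN by omega)
    have n1 := sub_nonneg.2 m1
    have n2 := sub_nonneg.2 m2
    have n3 := sub_nonneg.2 m3
    have n4 := sub_nonneg.2 m4
    have n5 := sub_nonneg.2 m5
    have g := glue m1 (m2.trans (m3.trans (m4.trans m5))) (by positivity) (by positivity) p1
      (glue m2 (m3.trans (m4.trans m5)) (by positivity) (by positivity) p2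
        (glue m3 (m4.trans m5) (by positivity) (by positivity) p3
          (glue m4 m5 (by positivity) (by positivity) p4 p5)))
    rw [e0, e1]
    refine g.trans (ENNReal.ofReal_le_ofReal ?_)
    have jj : jN + jN ≤ mN (k + 1) := by rw [mN_eq]; linarith [jN_le]
    have t1 := (abs_le.1 (A.BB_kid h L n k i le_rfl jj)).1
    have t2 := (abs_le.1 (A.BB_kid h L n k (i - 1) (j := mN (k + 1) - jN) (by omega) (by omega))).2
    have e2 : (i - 1) * M (k + 1) + (mN (k + 1) - jN : ℕ) = i * M (k + 1) - jN := by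
      rw [Nat.cast_sub (by omega), M]; ring
    have l1 := A.len h L (n + 1) k i (Or.inl rfl)
    have l2 := (A.len h L (n + 1) k i (Or.inr rfl)).1
    have l3 := (A.len h L n (k + 1) (i * M (k + 1) + 9) (Or.inl rfl)).1
    have u := L.up h k i (j := 9) (Or.inl (by norm_num))
    have u' := inv_le_of (c := 1 / 2000) (L.ok h (k + 2) (i * M (k + 1) + 9)).pos (by norm_num)
      (t := (U (k + 1) i).τ) (by push_cast at u; linarith)
    rw [e2, e0] at t2
    rw [e1] at t1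
    rw [e0, e1] at l1 l2
    rw [show i * M (k + 1) + 9 - 1 = i * M (k + 1) + 8 by ring] at l3
    clear j1 j2 jj e0 e1 e2 g p1 p2 p3 p4 p5 pc w1 w2 ih
    generalize BB a n (k + 1) (i * M (k + 1) - hN) = b0 at *
    generalize BB a n (k + 1) (i * M (k + 1) - jN) = b1 at *
    generalize BB a n (k + 1) (i * M (k + 1) + 8) = b2 at *
    generalize BB a n (k + 1) (i * M (k + 1) + 9) = b3 at *
    generalize BB a n (k + 1) (i * M (k + 1) + jN) = b4 at *
    generalize BB a n (k + 1) (i * M (k + 1) + hN) = b5 at *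
    have s1 : (b1 - b0) + (b5 - b4) ≤ 1 / 10 ^ 57 * (b5 - b0) := by linarith [l1.1]
    have s2 : 1 / 10 ^ 7 * (b5 - b0) ≤ b3 - b2 := by linarith [l1.2]
    have s3 : 2 * x * (b1 - b0) + ((1 + 1 / 10 ^ 57) * x * (b2 - b1) +
        ((1 + 1 / 10 ^ 57 - y) * x * (b3 - b2) + ((1 + 1 / 10 ^ 57) * x * (b4 - b3) +
        2 * x * (b5 - b4)))) ≤ θ * W k i * (b5 - b0) := by
      have f1 := mul_le_mul_of_nonneg_left s1 x0
      have f2 := mul_le_mul_of_nonneg_left s2 (mul_nonneg x0 y0)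
      have f3 := mul_le_mul_of_nonneg_right w4 (show 0 ≤ b5 - b0 by linarith)
      have f4 := mul_nonneg x0 (add_nonneg n1 n5)
      linarith
    have := mul_le_mul_of_nonneg_left s3 tn
    rw [pow_succ θ]
    linarith

theorem Args.ae_good (h : Lab η) (L : Lay η U) (A : Args U a) {W : ℕ → ℤ → ℝ} {G : ℕ → ℤ → Prop}
    {θ : ℝ} (P : Pot W G θ) (θ0 : 0 ≤ θ) (θ1 : θ < 1) :
    ∀ᵐ t : ℝ, ∀ k0, ∃ k ≥ k0, ∃ i, Near U a k i t ∧ G k i := by
  refine ae_all_iff.2 fun k => ?_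
  rw [ae_iff]
  set F := {t : ℝ | ¬∃ k' ≥ k, ∃ i, Near U a k' i t ∧ G k' i}
  have hF : ∀ t ∈ F, ∀ k' ≥ k, ∀ i, Near U a k' i t → ¬G k' i :=
    fun t ht k' hk i h1 h2 => ht ⟨k', hk, i, h1, h2⟩
  have lin : ∀ q : ℤ, a k (q * nn (k + 1)) = a k 0 + q * (2 * π) := by
    intro q
    induction q using Int.induction_on with
    | zero => simp
    | succ q ih => rw [add_mul, one_mul, A.per, ih]; push_cast; ring
    | pred q ih =>
      have := A.per k ((-q - 1) * nn (k + 1))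
      rw [show (-(q : ℤ) - 1) * nn (k + 1) + nn (k + 1) = -q * nn (k + 1) by ring, ih] at this
      push_cast at this ⊢; linarith
  have cl : ∀ n i, |BB a n k i - a k i| ≤ 1 := fun n i => (A.BB_close h L n k i).trans (by
    have := inv_le_one_of_one_le₀ (show 1 ≤ (U (k + 1) i).τ by linarith [L.tau_ge' h k i])
    linarith)
  have hp := Real.pi_gt_three
  have key : ∀ q : ℕ,
      volume (F ∩ Set.Ioc (a k 0 - q * (2 * π) + 1) (a k 0 + q * (2 * π) - 1)) = 0 := by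
    intro q
    obtain ⟨C, hC⟩ := ((Set.finite_Icc (-q * nn (k + 1)) (q * nn (k + 1))).image (W k)).bddAbove
    have hq : -q * nn (k + 1) ≤ q * nn (k + 1) := by nlinarith [nn_pos (k + 1)]
    have C0 : 0 ≤ C := le_trans (by linarith [P.one k (q * nn (k + 1))])
      (hC ⟨q * nn (k + 1), ⟨hq, le_rfl⟩, rfl⟩)
    have t1 : Tendsto (fun n : ℕ => ENNReal.ofReal (θ ^ n * (C * (q * (4 * π) + 2)))) atTop
        (𝓝 0) := by
      have := ENNReal.tendsto_ofReal
        ((tendsto_pow_atTop_nhds_zero_of_lt_one θ0 θ1).mul_const (C * (q * (4 * π) + 2)))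
      simpa using this
    refine le_antisymm (ge_of_tendsto' t1 fun n => ?_) zero_le
    have tn : 0 ≤ θ ^ n := pow_nonneg θ0 n
    have d := piece (F := F) (A.BB_mono n k) (mul_nonneg tn C0) hq fun m m1 m2 =>
      (A.decay h L P θ0 hF n k le_rfl m).trans (ENNReal.ofReal_le_ofReal
        (mul_le_mul_of_nonneg_right (mul_le_mul_of_nonneg_left (hC ⟨m, ⟨m1.le, m2⟩, rfl⟩) tn)
          (sub_nonneg.2 (A.BB_mono n k (by omega)))))
    have c1 := abs_le.1 (cl n (-q * nn (k + 1)))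
    have c2 := abs_le.1 (cl n (q * nn (k + 1)))
    rw [lin] at c1 c2
    push_cast at c1 c2
    refine (measure_mono (Set.inter_subset_inter_right _ (Set.Ioc_subset_Ioc (by linarith)
      (by linarith)))).trans (d.trans (ENNReal.ofReal_le_ofReal ?_))
    rw [mul_assoc]
    exact mul_le_mul_of_nonneg_left (mul_le_mul_of_nonneg_left (by linarith) C0) tn
  refine measure_mono_null (fun t ht => ?_) (measure_iUnion_null key)
  obtain ⟨q, hq⟩ := exists_nat_gt (|t - a k 0| + 1)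
  have q0 : (0 : ℝ) ≤ q := Nat.cast_nonneg q
  exact Set.mem_iUnion.2 ⟨q, ht, by nlinarith [neg_abs_le (t - a k 0)],
    by nlinarith [le_abs_self (t - a k 0)]⟩

end Pool.Agent.P.MP_3555ad_an.BD
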